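import Pool.Agent.Helper84.AP.Loc

set_option autoImplicit false

/-!
# The differences of the exponents modulo `p`
-/

namespace Pool.Agent.Helper84.AP

open Finset Polynomial Pool.Agent.W432.HK Pool.Agent.W432.WB

/-- The residue `- u / p` modulo `N`. -/
def jj (N : ℕ) (u : ℤ) (p : ℕ) : ℕ := (((-u : ℤ) : ZMod N) * ((p : ZMod N))⁻¹).val

lemma reduce_root {n p : ℕ} [Fact p.Prime] (α : Fin (n + 1) → ℤ) {x : ℚ}
    (hx : ∑ i : Fin (n + 1), (α i : ℚ) * (descPochhammer ℚ i).eval x = 0) {e : ZMod p}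
    (hp : ¬ p ∣ x.den) (he : (x.den : ZMod p) * e = (x.num : ZMod p)) :
    (dsum fun i => ((α i : ℤ) : ZMod p)).eval e = 0 := by
  set P : ℤ[X] := ∑ i : Fin (n + 1), C (α i) * descPochhammer ℤ i with hP
  have hev : ∀ {R : Type} [CommRing R] (g : ℤ →+* R) (y : R),
      eval₂ g y P = ∑ i : Fin (n + 1), g (α i) * (descPochhammer R i).eval y := by
    intro R _ g y
    rw [hP, eval₂_finsetSum]
    refine sum_congr rfl fun i _ => ?_
    rw [eval₂_mul, eval₂_C, ← eval_map, descPochhammer_map]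
  have h1 : eval₂ (Int.castRingHom ℚ) x P = 0 := by
    rw [hev]
    simpa using hx
  have h2 := scaleRoots_eval₂_mul (p := P) (f := Int.castRingHom ℚ) x (x.den : ℤ)
  rw [h1, mul_zero] at h2
  have h3 : (Int.castRingHom ℚ) (x.den : ℤ) * x = (Int.castRingHom ℚ) x.num := by
    simp only [eq_intCast, Int.cast_natCast]
    rw [mul_comm]
    exact Rat.mul_den_eq_num x
  rw [h3, eval₂_at_apply] at h2
  have h4 : eval x.num (scaleRoots P (x.den : ℤ)) = 0 := by
    have : ((eval x.num (scaleRoots P (x.den : ℤ)) : ℤ) : ℚ) = 0 := h2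
    exact_mod_cast this
  have h5 := scaleRoots_eval₂_mul (p := P) (f := Int.castRingHom (ZMod p)) e (x.den : ℤ)
  have h6 : (Int.castRingHom (ZMod p)) (x.den : ℤ) * e = (Int.castRingHom (ZMod p)) x.num := by
    simp only [eq_intCast, Int.cast_natCast]
    exact he
  rw [h6, eval₂_at_apply, h4, map_zero] at h5
  have h7 : (Int.castRingHom (ZMod p)) (x.den : ℤ) ≠ 0 := by
    simp only [eq_intCast, Int.cast_natCast]
    intro h
    exact hp ((ZMod.natCast_eq_zero_iff _ _).1 h)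
  have h8 := (mul_eq_zero.1 h5.symm).resolve_left (pow_ne_zero _ h7)
  rw [hev] at h8
  rw [dsum_eval]
  simpa using h8

/-- The gap. -/
lemma gap {N p : ℕ} [Fact p.Prime] (hN : 2 ≤ N) {u : ℤ} (hu : IsCoprime u (N : ℤ))
    (hpu : u.natAbs < p) (hpN : N < p) {e e' : ZMod p}
    (h : (N : ZMod p) * (e - e') = (u : ZMod p)) :
    1 ≤ (e - e').val ∧ 1 ≤ (e' - e).val ∧
      (N : ℤ) * (e - e').val = u + p * jj N u p ∧
      (N : ℤ) * (e' - e).val = -u + p * (N - jj N u p) ∧ 1 ≤ jj N u p ∧ jj N u p < N := by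
  have hp : p.Prime := Fact.out
  have : NeZero N := ⟨by omega⟩
  have : NeZero p := ⟨hp.ne_zero⟩
  have hu0 : u ≠ 0 := by
    rintro rfl
    have := isCoprime_zero_left.1 hu
    have := Int.isUnit_iff.1 this
    omega
  have huN : ¬ (N : ℤ) ∣ u := by
    intro h1
    have h2 := IsCoprime.of_isCoprime_of_dvd_left hu (dvd_refl u)
    have h3 : IsUnit (N : ℤ) := hu.isUnit_of_dvd' h1 (dvd_refl _)
    have := Int.isUnit_iff.1 h3
    omega
  have hne : e - e' ≠ 0 := by
    intro h0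
    rw [h0, mul_zero] at h
    have h1 := (ZMod.intCast_zmod_eq_zero_iff_dvd u p).1 h.symm
    have h2 := Int.natCast_dvd.1 h1
    exact absurd (Nat.le_of_dvd (Int.natAbs_pos.2 hu0) h2) (by omega)
  set k := (e - e').val with hk
  have hk1 : 1 ≤ k := by
    rw [hk]
    exact Nat.one_le_iff_ne_zero.2 fun h0 => hne ((ZMod.val_eq_zero _).1 h0)
  have hkp : k < p := ZMod.val_lt _
  have hk' : (e' - e).val = p - k := by
    have h1 : e' - e = -(e - e') := by ring
    rw [h1, ZMod.neg_val, if_neg hne]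
  have hcong : (p : ℤ) ∣ N * k - u := by
    rw [← ZMod.intCast_zmod_eq_zero_iff_dvd]
    push_cast
    rw [hk, ZMod.natCast_zmod_val, h, sub_self]
  obtain ⟨s, hs⟩ := hcong
  have hp0 : (0 : ℤ) < p := by exact_mod_cast hp.pos
  have huabs : |u| < p := by
    have : (u.natAbs : ℤ) < p := by exact_mod_cast hpu
    rwa [Int.natCast_natAbs] at this
  obtain ⟨hu1, hu2⟩ := abs_lt.1 huabs
  have hs0 : 0 ≤ s := by
    by_contra hneg
    have h1 : s ≤ -1 := by omega
    have h2 : (N : ℤ) * k ≥ N := by nlinarith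
    nlinarith
  have hsN : s ≤ N := by
    by_contra hneg
    have h1 : (N : ℤ) + 1 ≤ s := by omega
    have h2 : (k : ℤ) ≤ p - 1 := by omega
    have h3 : (N : ℤ) * k ≤ N * (p - 1) := mul_le_mul_of_nonneg_left h2 (by positivity)
    nlinarith
  have hcopN : IsUnit ((p : ℕ) : ZMod N) := by
    rw [ZMod.isUnit_iff_coprime]
    exact (Nat.Prime.coprime_iff_not_dvd hp).2 fun h1 => by
      have := Nat.le_of_dvd (by omega) h1
      omega
  have hsj : ((s : ℤ) : ZMod N) = ((-u : ℤ) : ZMod N) * ((p : ZMod N))⁻¹ := by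
    have h1 : ((p * s : ℤ) : ZMod N) = ((-u : ℤ) : ZMod N) := by
      rw [← hs]
      push_cast
      rw [ZMod.natCast_self]
      ring
    push_cast at h1 ⊢
    rw [← h1]
    have h2 : (p : ZMod N) * (p : ZMod N)⁻¹ = 1 := ZMod.mul_inv_of_unit _ hcopN
    linear_combination (-(s : ZMod N)) * h2
  have hs1 : s ≠ 0 := by
    rintro rfl
    apply huN
    exact ⟨k, by linarith⟩
  have hs2 : s ≠ N := by
    rintro rfl
    apply huN
    exact ⟨k - p, by linarith⟩
  have hj : (jj N u p : ℤ) = s := by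
    unfold jj
    rw [← hsj, ZMod.val_intCast]
    exact Int.emod_eq_of_lt hs0 (by omega)
  refine ⟨hk1, by rw [hk']; omega, ?_, ?_, ?_, ?_⟩
  · rw [hj]; linarith
  · rw [hj, hk']
    push_cast [hkp.le]
    linarith
  · omega
  · omega

/-- The local bound. -/
theorem local_bound {n d N p : ℕ} [Fact p.Prime] (hd : 1 ≤ d) (hn : 1 ≤ n) (hN : 2 ≤ N) {u : ℤ}
    (hu : IsCoprime u (N : ℤ)) (b a : Fin d → Fin (n + 1) → ℤ[X]) (r : ℤ[X])
    (hab : ∀ k i, X * b k i = X ^ (i : ℕ) * a k i)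
    (ha0 : ∀ (k : Fin d) (i : Fin (n + 1)), (k : ℕ) ≠ 0 → (a k i).coeff 0 = 0)
    (hr : ¬ (p : ℤ) ∣ r.coeff 0) (han : ¬ (p : ℤ) ∣ (a ⟨0, hd⟩ (Fin.last n)).coeff 0) {x x' : ℚ}
    (hx : ∑ i : Fin (n + 1), ((a ⟨0, hd⟩ i).coeff 0 : ℚ) * (descPochhammer ℚ i).eval x = 0)
    (hx' : ∑ i : Fin (n + 1), ((a ⟨0, hd⟩ i).coeff 0 : ℚ) * (descPochhammer ℚ i).eval x' = 0)
    (hxx : x - x' = (u : ℚ) / N) (hpx : ¬ p ∣ x.den) (hpu : u.natAbs < p) (hpN : N < p)
    (T : Finset (ZMod p))
    (hT : ∀ t ∈ T, ∃ q : ℤ, (q : ZMod p) = t ∧ FullMod (fam b r q) p) :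
    1 ≤ jj N u p ∧ jj N u p < N ∧
      (T.card : ℤ) * N ≤ d * (|u| + p * (min (jj N u p) (N - jj N u p) : ℕ)) := by
  have hp : p.Prime := Fact.out
  have hpx' : ¬ p ∣ x'.den := by
    intro h
    have h1 : x' = x - (u : ℚ) / N := by linarith
    have h2 : x'.den ∣ x.den * ((u : ℚ) / N).den := by
      rw [h1]; exact Rat.sub_den_dvd _ _
    have h3 : ((u : ℚ) / N).den ∣ N := by
      have h4 := Rat.den_div_eq_of_coprime (a := u) (b := (N : ℤ)) (by omega)
        (by rw [Int.isCoprime_iff_gcd_eq_one] at hu; simpa [Int.gcd, Nat.Coprime] using hu)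
      have h5 : ((u : ℚ) / N).den = N := by exact_mod_cast h4
      rw [h5]
    rcases (Nat.Prime.dvd_mul hp).1 (h.trans h2) with h4 | h4
    · exact hpx h4
    · exact absurd (Nat.le_of_dvd (by omega) (h4.trans h3)) (by omega)
  have hD : (x.den : ZMod p) ≠ 0 := fun h => hpx ((ZMod.natCast_eq_zero_iff _ _).1 h)
  have hD' : (x'.den : ZMod p) ≠ 0 := fun h => hpx' ((ZMod.natCast_eq_zero_iff _ _).1 h)
  set e : ZMod p := (x.num : ZMod p) / x.den with he
  set e' : ZMod p := (x'.num : ZMod p) / x'.den with he'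
  have hDe : (x.den : ZMod p) * e = (x.num : ZMod p) := by rw [he]; field_simp
  have hDe' : (x'.den : ZMod p) * e' = (x'.num : ZMod p) := by rw [he']; field_simp
  have r1 := reduce_root (fun i => (a ⟨0, hd⟩ i).coeff 0) hx hpx hDe
  have r2 := reduce_root (fun i => (a ⟨0, hd⟩ i).coeff 0) hx' hpx' hDe'
  have hint : (N : ℤ) * (x.num * x'.den - x'.num * x.den) = u * (x.den * x'.den) := by
    have hN0 : (N : ℚ) ≠ 0 := by
      have : N ≠ 0 := by omega
      exact_mod_cast this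
    have h1 : (N : ℚ) * (x - x') = u := by rw [hxx]; field_simp
    have h2 := Rat.mul_den_eq_num x
    have h3 := Rat.mul_den_eq_num x'
    have h4 : ((N : ℤ) * (x.num * x'.den - x'.num * x.den) : ℚ) = (u * (x.den * x'.den) : ℚ) := by
      push_cast
      rw [← h2, ← h3]
      linear_combination ((x.den : ℚ) * x'.den) * h1
    exact_mod_cast h4
  have hmod : (N : ZMod p) * (e - e') = (u : ZMod p) := by
    have h1 := congrArg (fun z : ℤ => (z : ZMod p)) hint
    push_cast at h1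
    rw [← hDe, ← hDe'] at h1
    have h2 : (x.den : ZMod p) * x'.den ≠ 0 := mul_ne_zero hD hD'
    apply mul_left_cancel₀ h2
    linear_combination h1
  obtain ⟨g1, g2, g3, g4, g5, g6⟩ := gap hN hu hpu hpN hmod
  refine ⟨g5, g6, ?_⟩
  have c1 := classes_gap hd hn b a r hab ha0 hr han r1 r2 g1
    (by rw [ZMod.natCast_zmod_val]; ring) T hT
  have c2 := classes_gap hd hn b a r hab ha0 hr han r2 r1 g2
    (by rw [ZMod.natCast_zmod_val]; ring) T hT
  have c1' : (T.card : ℤ) ≤ d * (e - e').val := by exact_mod_cast c1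
  have c2' : (T.card : ℤ) ≤ d * (e' - e).val := by exact_mod_cast c2
  have hNn : (0 : ℤ) ≤ N := by positivity
  have b1 : (T.card : ℤ) * N ≤ d * (|u| + p * jj N u p) := by
    calc (T.card : ℤ) * N ≤ (d * (e - e').val) * N := mul_le_mul_of_nonneg_right c1' hNn
      _ = d * (N * (e - e').val) := by ring
      _ = d * (u + p * jj N u p) := by rw [g3]
      _ ≤ _ := by
        refine mul_le_mul_of_nonneg_left ?_ (by positivity)
        linarith [le_abs_self u]
  have b2 : (T.card : ℤ) * N ≤ d * (|u| + p * (N - jj N u p)) := by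
    calc (T.card : ℤ) * N ≤ (d * (e' - e).val) * N := mul_le_mul_of_nonneg_right c2' hNn
      _ = d * (N * (e' - e).val) := by ring
      _ = d * (-u + p * (N - jj N u p)) := by rw [g4]
      _ ≤ _ := by
        refine mul_le_mul_of_nonneg_left ?_ (by positivity)
        linarith [neg_le_abs u]
  rcases le_total (jj N u p) (N - jj N u p) with h | h
  · rw [min_eq_left h]; exact b1
  · rw [min_eq_right h]
    push_cast [g6.le]
    exact b2

end Pool.Agent.Helper84.AP
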