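import Pool.Agent.Helper84.AP.Op
import Pool.Agent.W432.WB.Wron

set_option autoImplicit false

/-!
# The number of the classes of parameters with a full basis
-/

namespace Pool.Agent.Helper84.AP

open Finset Polynomial Pool.Agent.W432.HK Pool.Agent.W432.WB

/-- The coefficients of `∑ q ^ k L_k + q ^ d r`. -/
noncomputable def fam {n d : ℕ} (b : Fin d → Fin (n + 1) → ℤ[X]) (r : ℤ[X]) (q : ℤ) :
    Fin (n + 1) → ℤ[X] :=
  fun i => (∑ k : Fin d, C (q ^ (k : ℕ)) * b k i) + if i = 0 then C (q ^ d) * r else 0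

section attained

variable {p : ℕ} [Fact p.Prime] {n d : ℕ} (hd : 1 ≤ d)
  (a : Fin d → Fin (n + 1) → (ZMod p)[X]) (r : (ZMod p)[X])

include hd in
lemma eval_FF_zero (ha0 : ∀ (k : Fin d) (i : Fin (n + 1)), (k : ℕ) ≠ 0 → (a k i).coeff 0 = 0) (s q : ZMod p) :
    (FF a r 0 s).eval q = (dsum fun i => (a ⟨0, hd⟩ i).coeff 0).eval s := by
  rw [eval_FF, dsum_eval]
  refine sum_congr rfl fun i _ => ?_
  congr 1
  unfold AA
  rw [coeff_add, finsetSum_coeff]
  have h1 : (if i = 0 then C (q ^ d) * (X * r) else 0 : (ZMod p)[X]).coeff 0 = 0 := by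
    split_ifs
    · rw [coeff_C_mul, coeff_X_mul_zero, mul_zero]
    · simp
  rw [h1, add_zero, sum_eq_single ⟨0, hd⟩]
  · rw [coeff_C_mul]; simp
  · intro k _ hk
    rw [coeff_C_mul, ha0 k i fun h => hk (Fin.ext h), mul_zero]
  · intro h; exact absurd (mem_univ _) h

include hd in
/-- All exponents are attained. -/
theorem attained (ha0 : ∀ (k : Fin d) (i : Fin (n + 1)), (k : ℕ) ≠ 0 → (a k i).coeff 0 = 0)
    (hne : (fun i => (a ⟨0, hd⟩ i).coeff 0) ≠ 0) {q : ZMod p} {B : Fin (n + 1) → (ZMod p)[X]}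
    (hB : ∀ i, X * B i = X ^ (i : ℕ) * AA a r q i) {f : Fin n → (ZMod p)[X]}
    (hf : ∀ j, ∑ i : Fin (n + 1), B i * derivative^[(i : ℕ)] (f j) = 0)
    (hdet : (Matrix.of fun j i : Fin n => derivative^[(i : ℕ)] (f j)).det ≠ 0) {e : ZMod p}
    (he : (dsum fun i => (a ⟨0, hd⟩ i).coeff 0).eval e = 0) :
    ∃ (y : ℕ → ZMod p) (t : ℕ), y t ≠ 0 ∧
      ∀ m, (dsum fun i => (a ⟨0, hd⟩ i).coeff 0).eval (e + ((m : ℕ) : ZMod p)) * y (t + m) +
        ∑ j : Fin m, (FF a r (m - j) (e + ((j : ℕ) : ZMod p))).eval q * y (t + j) = 0 := by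
  classical
  have h1 := classes (p := p) f (ind_of_wronskian hdet) (fun y => y.natTrailingDegree)
    (fun o => lcoeff (ZMod p) o) (fun y _ => natTrailingDegree_le_natDegree y)
    (fun y hy => by
      show y.coeff y.natTrailingDegree ≠ 0
      exact trailingCoeff_nonzero_iff_nonzero.2 hy)
  have hrec : ∀ y ∈ V f, ∀ m, (dsum fun i => (a ⟨0, hd⟩ i).coeff 0).eval
        (((y.natTrailingDegree : ℕ) : ZMod p) + ((m : ℕ) : ZMod p)) *
          y.coeff (y.natTrailingDegree + m) +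
        ∑ j : Fin m, (FF a r (m - j) (((y.natTrailingDegree : ℕ) : ZMod p) + ((j : ℕ) : ZMod p))).eval q *
          y.coeff (y.natTrailingDegree + j) = 0 := by
    intro y hy m
    have h2 := V_sol hf hy
    have h3 : ∑ i : Fin (n + 1), AA a r q i * (X ^ (i : ℕ) * derivative^[(i : ℕ)] y) = 0 := by
      have h4 := congrArg (fun g => X * g) h2
      simp only [mul_zero, mul_sum] at h4
      rw [← h4]
      refine sum_congr rfl fun i _ => ?_
      linear_combination (-derivative^[(i : ℕ)] y) * hB i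
    exact recurrence a r (fun s => eval_FF_zero hd a r ha0 s q) h3
      (fun s hs => coeff_eq_zero_of_lt_natTrailingDegree hs) rfl m
  set C' := univ.filter fun c : ZMod p => ∃ y ∈ V f, y ≠ 0 ∧
    ((y.natTrailingDegree : ℕ) : ZMod p) = c with hC'
  have hPne := dsum_ne_zero hne
  have hsub : C' ⊆ (dsum fun i => (a ⟨0, hd⟩ i).coeff 0).roots.toFinset := by
    intro c hc
    rw [hC', mem_filter] at hc
    obtain ⟨-, y, hyV, hy0, rfl⟩ := hc
    rw [Multiset.mem_toFinset, mem_roots hPne]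
    have h2 := hrec y hyV 0
    simp only [univ_eq_empty, sum_empty, add_zero, Nat.cast_zero] at h2
    exact (mul_eq_zero.1 h2).resolve_right (trailingCoeff_nonzero_iff_nonzero.2 hy0)
  have hle : (dsum fun i => (a ⟨0, hd⟩ i).coeff 0).roots.toFinset.card ≤ n :=
    ((Multiset.toFinset_card_le _).trans (card_roots' _)).trans (dsum_natDegree_le _ fun k hk => by
      have := k.isLt
      omega)
  have heq : C' = (dsum fun i => (a ⟨0, hd⟩ i).coeff 0).roots.toFinset :=
    eq_of_subset_of_card_le hsub (hle.trans h1)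
  have heC : e ∈ C' := by
    rw [heq, Multiset.mem_toFinset, mem_roots hPne]
    exact he
  rw [hC', mem_filter] at heC
  obtain ⟨-, y, hyV, hy0, rfl⟩ := heC
  exact ⟨fun s => y.coeff s, y.natTrailingDegree, trailingCoeff_nonzero_iff_nonzero.2 hy0,
    fun m => hrec y hyV m⟩

end attained

/-- At most `d k` classes of parameters, if `k` is a difference of exponents modulo `p`. -/
theorem classes_gap {n d p : ℕ} [Fact p.Prime] (hd : 1 ≤ d) (hn : 1 ≤ n)
    (b a : Fin d → Fin (n + 1) → ℤ[X]) (r : ℤ[X])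
    (hab : ∀ k i, X * b k i = X ^ (i : ℕ) * a k i)
    (ha0 : ∀ (k : Fin d) (i : Fin (n + 1)), (k : ℕ) ≠ 0 → (a k i).coeff 0 = 0) (hr : ¬ (p : ℤ) ∣ r.coeff 0)
    (han : ¬ (p : ℤ) ∣ (a ⟨0, hd⟩ (Fin.last n)).coeff 0) {e e' : ZMod p}
    (he : (dsum fun i => (((a ⟨0, hd⟩ i).coeff 0 : ℤ) : ZMod p)).eval e = 0)
    (he' : (dsum fun i => (((a ⟨0, hd⟩ i).coeff 0 : ℤ) : ZMod p)).eval e' = 0)
    {k₀ : ℕ} (hk₀ : 1 ≤ k₀) (hee : e' + (k₀ : ZMod p) = e) (T : Finset (ZMod p))
    (hT : ∀ t ∈ T, ∃ q : ℤ, (q : ZMod p) = t ∧ FullMod (fam b r q) p) : T.card ≤ d * k₀ := by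
  classical
  set a' : Fin d → Fin (n + 1) → (ZMod p)[X] := fun k i => (a k i).map (Int.castRingHom (ZMod p))
    with ha'
  set r' : (ZMod p)[X] := r.map (Int.castRingHom (ZMod p)) with hr'
  have hcoef : (fun i => (((a ⟨0, hd⟩ i).coeff 0 : ℤ) : ZMod p)) =
      fun i => (a' ⟨0, hd⟩ i).coeff 0 := by
    funext i
    simp [ha']
  rw [hcoef] at he he'
  have ha0' : ∀ (k : Fin d) (i : Fin (n + 1)), (k : ℕ) ≠ 0 → (a' k i).coeff 0 = 0 := by
    intro k i hk
    simp [ha', ha0 k i hk]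
  have hn0 : (a' ⟨0, hd⟩ (Fin.last n)).coeff 0 ≠ 0 := by
    intro h
    apply han
    rw [← ZMod.intCast_zmod_eq_zero_iff_dvd]
    simpa [ha'] using h
  have hne : (fun i => (a' ⟨0, hd⟩ i).coeff 0) ≠ 0 := fun h => hn0 (congrFun h (Fin.last n))
  have hr0 : r'.coeff 0 ≠ 0 := by
    intro h
    apply hr
    rw [← ZMod.intCast_zmod_eq_zero_iff_dvd]
    simpa [hr'] using h
  -- the next exponent
  have hex : ∃ k : ℕ, 1 ≤ k ∧
      (dsum fun i => (a' ⟨0, hd⟩ i).coeff 0).eval (e' + (k : ZMod p)) = 0 :=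
    ⟨k₀, hk₀, by rw [hee]; exact he⟩
  obtain ⟨hk1, hk2⟩ := Nat.find_spec hex
  have hkle : Nat.find hex ≤ k₀ := Nat.find_min' hex ⟨hk₀, by rw [hee]; exact he⟩
  have hmain := card_le (K := ZMod p) (F := FF a' r')
    (P0 := fun s => (dsum fun i => (a' ⟨0, hd⟩ i).coeff 0).eval s) (e := e') hd hr0
    (fun s => coeff_FF_one a' r' s) (fun j s hj => deg_FF a' r' hj) hk1
    (fun i h1 h2 h3 => Nat.find_min hex h2 ⟨h1, h3⟩) hk2 T ?_
  · exact hmain.trans (Nat.mul_le_mul_left _ hkle)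
  intro t ht
  obtain ⟨q, rfl, hfull⟩ := hT t ht
  have hB : ∀ i, X * (fam b r q i).map (Int.castRingHom (ZMod p)) =
      X ^ (i : ℕ) * AA a' r' (q : ZMod p) i := by
    intro i
    have h1 : X * fam b r q i = X ^ (i : ℕ) * (∑ k : Fin d, C (q ^ (k : ℕ)) * a k i +
        if i = 0 then C (q ^ d) * (X * r) else 0) := by
      unfold fam
      rw [mul_add, mul_add, mul_sum, mul_sum]
      congr 1
      · refine sum_congr rfl fun k _ => ?_
        linear_combination C (q ^ (k : ℕ)) * hab k i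
      · split_ifs with h
        · subst h
          simp only [Fin.val_zero, pow_zero, one_mul]
          ring
        · simp
    have h2 := congrArg (Polynomial.map (Int.castRingHom (ZMod p))) h1
    rw [Polynomial.map_mul, Polynomial.map_mul, Polynomial.map_pow, map_X] at h2
    rw [h2]
    congr 1
    unfold AA
    rw [Polynomial.map_add, Polynomial.map_sum]
    congr 1
    · refine sum_congr rfl fun k _ => ?_
      simp [ha']
    · split_ifs
      · simp [hr']
      · simp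
  have hlead : (fam b r q (Fin.last n)).map (Int.castRingHom (ZMod p)) ≠ 0 := by
    intro h0
    have h1 := hB (Fin.last n)
    rw [h0, mul_zero] at h1
    have h2 := (mul_eq_zero.1 h1.symm).resolve_left (pow_ne_zero _ X_ne_zero)
    have h3 := congrArg (fun g => g.coeff 0) h2
    simp only [coeff_zero] at h3
    unfold AA at h3
    rw [if_neg (by
      intro h
      have := congrArg Fin.val h
      simp at this
      omega), add_zero, finsetSum_coeff, sum_eq_single ⟨0, hd⟩] at h3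
    · rw [coeff_C_mul] at h3
      simp only [pow_zero, one_mul] at h3
      exact hn0 h3
    · intro k _ hk
      rw [coeff_C_mul, ha0' k _ fun h => hk (Fin.ext h), mul_zero]
    · intro h; exact absurd (mem_univ _) h
  obtain ⟨f, hf, hdet⟩ := hfull.exists_poly hlead
  exact attained hd a' r' ha0' hne hB hf hdet he'

end Pool.Agent.Helper84.AP
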