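import Mathlib

set_option autoImplicit false

/-!
# The average of the weights
-/

namespace Pool.Agent.Helper84.AP

open Finset

lemma harm_sieve (Q : Finset ℕ) (hQ : ∀ q ∈ Q, q.Prime) (x : ℕ) :
    (∏ q ∈ Q, (1 - (q : ℝ)⁻¹)) * ∑ m ∈ Icc 1 x, (m : ℝ)⁻¹ ≤
      ∑ m ∈ (Icc 1 x).filter (fun m => ∀ q ∈ Q, ¬ q ∣ m), (m : ℝ)⁻¹ := by
  classical
  induction Q using Finset.induction_on with
  | empty => simp
  | insert q Q hq ih =>
    have ih' := ih fun p hp => hQ p (mem_insert_of_mem hp)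
    have hqp := hQ q (mem_insert_self _ _)
    have hq1 : (1 : ℝ) < q := by exact_mod_cast hqp.one_lt
    have hq0 : (0 : ℝ) < q := by linarith
    have hinv : 0 ≤ 1 - (q : ℝ)⁻¹ := by
      rw [sub_nonneg]
      exact inv_le_one_of_one_le₀ hq1.le
    set F := (Icc 1 x).filter (fun m => ∀ q ∈ Q, ¬ q ∣ m) with hF
    have hsplit : ∑ m ∈ F, (m : ℝ)⁻¹ =
        ∑ m ∈ F.filter (fun m => q ∣ m), (m : ℝ)⁻¹ +
          ∑ m ∈ F.filter (fun m => ¬ q ∣ m), (m : ℝ)⁻¹ :=
      (sum_filter_add_sum_filter_not F (fun m => q ∣ m) _).symm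
    have hF' : F.filter (fun m => ¬ q ∣ m) =
        (Icc 1 x).filter (fun m => ∀ q' ∈ insert q Q, ¬ q' ∣ m) := by
      ext m
      simp only [hF, mem_filter, mem_insert, forall_eq_or_imp]
      tauto
    have hdiv : ∑ m ∈ F.filter (fun m => q ∣ m), (m : ℝ)⁻¹ ≤ (q : ℝ)⁻¹ * ∑ m ∈ F, (m : ℝ)⁻¹ := by
      rw [mul_sum]
      have h1 : ∑ m ∈ F.filter (fun m => q ∣ m), (m : ℝ)⁻¹ =
          ∑ m ∈ (F.filter (fun m => q ∣ m)).image (fun m => m / q), (q : ℝ)⁻¹ * (m : ℝ)⁻¹ := by
        rw [sum_image]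
        · refine sum_congr rfl fun m hm => ?_
          obtain ⟨k, rfl⟩ := (mem_filter.1 hm).2
          rw [Nat.mul_div_cancel_left k hqp.pos]
          push_cast
          rw [mul_inv]
        · intro m hm m' hm' h
          obtain ⟨k, rfl⟩ := (mem_filter.1 (mem_coe.1 hm)).2
          obtain ⟨k', rfl⟩ := (mem_filter.1 (mem_coe.1 hm')).2
          simp only [Nat.mul_div_cancel_left _ hqp.pos] at h
          rw [h]
      rw [h1]
      refine sum_le_sum_of_subset_of_nonneg ?_ fun m _ _ => by positivity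
      intro m hm
      obtain ⟨m', hm', rfl⟩ := mem_image.1 hm
      obtain ⟨h2, k, rfl⟩ := mem_filter.1 hm'
      rw [Nat.mul_div_cancel_left k hqp.pos]
      rw [hF, mem_filter, mem_Icc] at h2 ⊢
      obtain ⟨⟨h3, h4⟩, h5⟩ := h2
      have hk0 : 1 ≤ k := by
        rcases Nat.eq_zero_or_pos k with h | h
        · subst h; omega
        · exact h
      refine ⟨⟨hk0, le_trans (Nat.le_mul_of_pos_left k hqp.pos) h4⟩, fun q' hq' hdvd => ?_⟩
      exact h5 q' hq' (hdvd.mul_left q)
    rw [prod_insert hq, ← hF']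
    have h3 := mul_le_mul_of_nonneg_left ih' hinv
    nlinarith

/-- The sum over the residues prime to `N`. -/
lemma harm_coprime (N x : ℕ) (hN : 0 < N) :
    (N.totient : ℝ) / N * Real.log (x + 1) ≤
      ∑ m ∈ (Icc 1 x).filter (fun m => N.Coprime m), (m : ℝ)⁻¹ := by
  have h1 := harm_sieve N.primeFactors (fun q hq => Nat.prime_of_mem_primeFactors hq) x
  have h2 : ∏ q ∈ N.primeFactors, (1 - (q : ℝ)⁻¹) = (N.totient : ℝ) / N := by
    have h3 := Nat.totient_eq_mul_prod_factors N
    have h4 : (N.totient : ℝ) = N * ∏ p ∈ N.primeFactors, (1 - (p : ℝ)⁻¹) := by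
      have := congrArg (fun z : ℚ => (z : ℝ)) h3
      push_cast at this
      exact this
    rw [h4]
    have : (N : ℝ) ≠ 0 := by exact_mod_cast hN.ne'
    field_simp
  have h5 : (Icc 1 x).filter (fun m => ∀ q ∈ N.primeFactors, ¬ q ∣ m) =
      (Icc 1 x).filter (fun m => N.Coprime m) := by
    refine filter_congr fun m _ => ?_
    constructor
    · intro h
      refine Nat.coprime_of_dvd fun k hk h1 h2 => ?_
      exact h k (Nat.mem_primeFactors.2 ⟨hk, h1, hN.ne'⟩) h2
    · intro h q hq hqm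
      have hq' := Nat.mem_primeFactors.1 hq
      have := Nat.dvd_gcd hq'.2.1 hqm
      rw [Nat.Coprime] at h
      rw [h] at this
      exact hq'.1.one_lt.ne' (Nat.dvd_one.1 this)
  rw [h2, h5] at h1
  refine le_trans (mul_le_mul_of_nonneg_left ?_ (by positivity)) h1
  have h6 := log_add_one_le_harmonic x
  rw [harmonic_eq_sum_Icc] at h6
  push_cast at h6
  exact h6

/-- The average of the weights over the residues prime to `N`. -/
noncomputable def avgWeight (n d N : ℕ) : ℝ :=
  (∑ v ∈ (range N).filter (fun v => N.Coprime v),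
    max 1 (max ((n : ℝ) / d) ((N : ℝ) / (d * (min v (N - v) : ℕ))))) / (N.totient : ℝ)

theorem avgWeight_ge {n d N : ℕ} (hd : 1 ≤ d) (hN : 2 ≤ N) :
    2 / d * Real.log (N / 2) ≤ avgWeight n d N := by
  have hN0 : 0 < N := by omega
  have hd0 : (0 : ℝ) < d := by exact_mod_cast hd
  have hNr : (0 : ℝ) < N := by exact_mod_cast hN0
  have hφ : (0 : ℝ) < N.totient := by exact_mod_cast Nat.totient_pos.2 hN0
  set x := (N - 1) / 2 with hx
  have hxN : 2 * x < N := by omega
  set S := (Icc 1 x).filter (fun m => N.Coprime m) with hS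
  set f : ℕ → ℝ := fun v => max 1 (max ((n : ℝ) / d) ((N : ℝ) / (d * (min v (N - v) : ℕ)))) with hf
  have hf0 : ∀ v, 0 ≤ f v := fun v => zero_le_one.trans (le_max_left _ _)
  have hf1 : ∀ v, (N : ℝ) / (d * (min v (N - v) : ℕ)) ≤ f v := fun v =>
    (le_max_right _ _).trans (le_max_right _ _)
  have h1 : ∑ v ∈ S, f v + ∑ v ∈ S.image (fun v => N - v), f v ≤
      ∑ v ∈ (range N).filter (fun v => N.Coprime v), f v := by
    have hdisj : Disjoint S (S.image (fun v => N - v)) := by
      rw [disjoint_left]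
      intro v hv hv'
      obtain ⟨w, hw, hwv⟩ := mem_image.1 hv'
      rw [hS, mem_filter, mem_Icc] at hv hw
      omega
    rw [← sum_union hdisj]
    refine sum_le_sum_of_subset_of_nonneg ?_ fun v _ _ => hf0 v
    intro v hv
    rcases mem_union.1 hv with hv | hv
    · rw [hS, mem_filter, mem_Icc] at hv
      rw [mem_filter, mem_range]
      exact ⟨by omega, hv.2⟩
    · obtain ⟨w, hw, hwv⟩ := mem_image.1 hv
      rw [hS, mem_filter, mem_Icc] at hw
      rw [mem_filter, mem_range]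
      subst hwv
      refine ⟨by omega, ?_⟩
      exact (Nat.coprime_self_sub_right (by omega)).2 hw.2
  have h2 : ∑ v ∈ S.image (fun v => N - v), f v = ∑ v ∈ S, f (N - v) := by
    rw [sum_image]
    intro v hv w hw h
    rw [mem_coe, hS, mem_filter, mem_Icc] at hv hw
    simp only at h
    omega
  have h3 : ∀ v ∈ S, (N : ℝ) / d * (v : ℝ)⁻¹ ≤ f v ∧ (N : ℝ) / d * (v : ℝ)⁻¹ ≤ f (N - v) := by
    intro v hv
    rw [hS, mem_filter, mem_Icc] at hv
    have e1 : min v (N - v) = v := min_eq_left (by omega)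
    have e2 : min (N - v) (N - (N - v)) = v := by
      rw [Nat.sub_sub_self (by omega)]
      exact min_eq_right (by omega)
    have e3 : (N : ℝ) / d * (v : ℝ)⁻¹ = (N : ℝ) / (d * (v : ℕ)) := by
      rw [← div_eq_mul_inv, div_div]
    constructor
    · have := hf1 v
      rw [e1] at this
      rw [e3]
      exact this
    · have := hf1 (N - v)
      rw [e2] at this
      rw [e3]
      exact this
  have h4 : 2 * ((N : ℝ) / d * ∑ v ∈ S, (v : ℝ)⁻¹) ≤
      ∑ v ∈ (range N).filter (fun v => N.Coprime v), f v := by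
    refine le_trans ?_ h1
    rw [h2, mul_sum]
    have e1 := sum_le_sum fun v hv => (h3 v hv).1
    have e2 := sum_le_sum fun v hv => (h3 v hv).2
    linarith
  have h5 := harm_coprime N x hN0
  have h6 : Real.log (N / 2) ≤ Real.log (x + 1) := by
    refine Real.log_le_log (by positivity) ?_
    have h7 : N ≤ 2 * (x + 1) := by omega
    have h8 : (N : ℝ) ≤ 2 * (x + 1) := by exact_mod_cast h7
    linarith
  unfold avgWeight
  rw [le_div_iff₀ hφ]
  refine le_trans ?_ h4
  have h9 : (N.totient : ℝ) / N * Real.log (N / 2) ≤ ∑ v ∈ S, (v : ℝ)⁻¹ :=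
    (mul_le_mul_of_nonneg_left h6 (by positivity)).trans h5
  have h10 := mul_le_mul_of_nonneg_left h9 (show 0 ≤ 2 * ((N : ℝ) / d) by positivity)
  have e : 2 * ((N : ℝ) / d) * ((N.totient : ℝ) / N * Real.log (N / 2)) =
      2 / d * Real.log (N / 2) * N.totient := by
    field_simp
  linarith

end Pool.Agent.Helper84.AP
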