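import Pool.Agent.Helper84.AP.Sieve

set_option autoImplicit false

/-!
# Sparse sets of integers from the larger sieve with weights depending on the class of the prime
-/

namespace Pool.Agent.Helper84.AP

open Finset Filter Pool.Agent.Helper923.HMertens Pool.Agent.TH924.PC

/-- The weight of a prime. -/
noncomputable def Gw {N : ℕ} [NeZero N] (g : (ZMod N)ˣ → ℝ) (p : ℕ) : ℝ :=
  ∑ c : (ZMod N)ˣ, if (p : ZMod N) = c then g c else 0

lemma Gw_eq {N : ℕ} [NeZero N] (g : (ZMod N)ˣ → ℝ) {p : ℕ} {c : (ZMod N)ˣ}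
    (h : (p : ZMod N) = c) : Gw g p = g c := by
  unfold Gw
  rw [sum_eq_single c]
  · rw [if_pos h]
  · intro c' _ hc'
    rw [if_neg]
    rw [h]
    intro h'
    exact hc' (Units.ext h'.symm)
  · intro h'; exact absurd (mem_univ _) h'

lemma Gw_nonneg {N : ℕ} [NeZero N] {g : (ZMod N)ˣ → ℝ} (hg : ∀ c, 0 ≤ g c) (p : ℕ) :
    0 ≤ Gw g p := sum_nonneg fun c _ => by split_ifs; exacts [hg c, le_rfl]

/-- The lower bound for the weighted sum over the primes. -/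
theorem weight_sum {N : ℕ} [NeZero N] (g : (ZMod N)ˣ → ℝ) (hg : ∀ c, 0 ≤ g c) :
    ∃ C : ℝ, 0 ≤ C ∧ ∀ x : ℕ, 1 ≤ x →
      (∑ c, g c) / (Nat.totient N : ℝ) * Real.log x - C ≤ ∑ p ∈ PP x, Real.log p / p * Gw g p := by
  choose Cc hCc0 hCc using fun c : (ZMod N)ˣ => mer_ap N c
  refine ⟨∑ c, g c * Cc c, sum_nonneg fun c _ => mul_nonneg (hg c) (hCc0 c), fun x hx => ?_⟩
  have h1 : ∑ p ∈ PP x, Real.log p / p * Gw g p = ∑ c : (ZMod N)ˣ, g c *
      ∑ p ∈ (Icc 1 x).filter (fun p : ℕ => p.Prime ∧ (p : ZMod N) = c), Real.log p / p := by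
    unfold Gw
    simp only [mul_sum]
    rw [sum_comm]
    refine sum_congr rfl fun c _ => ?_
    rw [← filter_filter, sum_filter (fun p : ℕ => (p : ZMod N) = c)]
    refine sum_congr rfl fun p _ => ?_
    split_ifs <;> ring
  rw [h1, sum_div, sum_mul, ← sum_sub_distrib]
  refine sum_le_sum fun c _ => ?_
  have h2 := (abs_le.1 (hCc c x hx)).1
  have h3 : 1 / (Nat.totient N : ℝ) * Real.log x - Cc c ≤
      ∑ p ∈ (Icc 1 x).filter (fun p : ℕ => p.Prime ∧ (p : ZMod N) = c), Real.log p / p := by linarith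
  have h4 := mul_le_mul_of_nonneg_left h3 (hg c)
  have e : g c / (Nat.totient N : ℝ) * Real.log x - g c * Cc c =
      g c * (1 / (Nat.totient N : ℝ) * Real.log x - Cc c) := by ring
  rw [e]
  exact h4

open Classical in
theorem main_sieve {N : ℕ} [NeZero N] (g : (ZMod N)ˣ → ℝ) (hg : ∀ c, 0 ≤ g c) {B : ℝ}
    (hgB : ∀ c, g c ≤ B) {Av : ℝ} (hAv : Av = (∑ c, g c) / (Nat.totient N : ℝ)) (U P₁ : ℕ)
    {θ η : ℝ} (K : ℝ) (hθ : 0 < θ) (hη : 0 ≤ η) (h1 : B * η < Av * θ)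
    (h2 : Av * θ < (Av * θ - B * η) ^ 2) :
    ∃ C : ℝ, ∀ A : ℕ → ℤ → Prop,
      (∀ p : ℕ, p.Prime → P₁ < p → ∀ c : (ZMod N)ˣ, (p : ZMod N) = c → ∀ T : Finset (ZMod p),
        (∀ t ∈ T, ∃ q : ℤ, (q : ZMod p) = t ∧ A p q) → (T.card : ℝ) * g c ≤ p + U) →
      ∀ X : ℝ, 2 ≤ X →
        (Set.ncard {q : ℤ | |(q : ℝ)| ≤ X ∧
          ∑ p ∈ Icc 1 ⌊X ^ θ⌋₊ with p.Prime ∧ ¬ A p q, Real.log p / p ≤
            η * Real.log X + K} : ℝ) ≤ C * X ^ θ := by
  obtain ⟨C₁, hC₁0, hC₁⟩ := weight_sum g hg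
  obtain ⟨C₂, hC₂0, hC₂⟩ := sum_small_bound
  have hB0 : 0 ≤ B := (hg 1).trans (hgB 1)
  obtain ⟨a, ha⟩ : ∃ a : ℝ, a = Av * θ := ⟨_, rfl⟩
  obtain ⟨b, hb⟩ : ∃ b : ℝ, b = B * η := ⟨_, rfl⟩
  have hb0 : 0 ≤ b := by rw [hb]; positivity
  rw [← ha, ← hb] at h1 h2
  have ha0 : 0 < a := by linarith
  obtain ⟨t, ht⟩ : ∃ t : ℝ, t = (a - b) / a := ⟨_, rfl⟩
  have ht0 : 0 < t := by rw [ht]; exact div_pos (by linarith) ha0
  have ht1 : t ≤ 1 := by rw [ht, div_le_one ha0]; linarith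
  obtain ⟨c₀, hc₀⟩ : ∃ c₀ : ℝ, c₀ = (a - b) ^ 2 / a - 1 := ⟨_, rfl⟩
  have hc₀0 : 0 < c₀ := by
    rw [hc₀, sub_pos, lt_div_iff₀ ha0]; linarith
  have hkey : (2 * t - t ^ 2) * a - 2 * t * b - 1 = c₀ := by
    rw [hc₀, ht]
    field_simp
    ring
  have ht2 : 0 ≤ 2 * t - t ^ 2 := by nlinarith
  obtain ⟨P₂, hP₂⟩ : ∃ P₂ : ℕ, P₂ = max P₁ (max U N) := ⟨_, rfl⟩
  obtain ⟨C₃, hC₃⟩ : ∃ C₃ : ℝ, C₃ = ∑ p ∈ PP P₂, Real.log p / p * Gw g p := ⟨_, rfl⟩
  have hterm0 : ∀ p : ℕ, 0 ≤ Real.log p / p * Gw g p := fun p =>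
    mul_nonneg (div_nonneg (Real.log_natCast_nonneg p) (Nat.cast_nonneg p)) (Gw_nonneg hg p)
  have hC₃0 : 0 ≤ C₃ := by rw [hC₃]; exact sum_nonneg fun p _ => hterm0 p
  have hl2 : 0 < Real.log 2 := Real.log_pos (by norm_num)
  -- the total constant
  have hAv0 : 0 ≤ Av := by
    rw [hAv]
    exact div_nonneg (sum_nonneg fun c _ => hg c) (Nat.cast_nonneg _)
  obtain ⟨C₄, hC₄⟩ : ∃ C₄ : ℝ, C₄ = (2 * t - t ^ 2) * (Av * Real.log 2 + C₁ + C₃ + B * U * C₂) +
    2 * t * B * |K| + Real.log 2 := ⟨_, rfl⟩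
  obtain ⟨L₀, hL₀⟩ : ∃ L₀ : ℝ, L₀ = (C₄ + 1) / c₀ := ⟨_, rfl⟩
  refine ⟨max 2 (2 * Real.exp L₀ + 1), fun A hA X hX => ?_⟩
  have hX0 : 0 < X := by linarith
  have hXθ : 1 ≤ X ^ θ := Real.one_le_rpow (by linarith) hθ.le
  obtain ⟨S, hS1, hS2, hS3⟩ := exists_finset (fun q =>
        ∑ p ∈ Icc 1 ⌊X ^ θ⌋₊ with p.Prime ∧ ¬ A p q, Real.log p / p ≤
          η * Real.log X + K) hX0.le
  rw [hS2]
  obtain ⟨L, hL⟩ : ∃ L : ℝ, L = Real.log X := ⟨_, rfl⟩
  rw [← hL] at hS1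
  rcases lt_or_ge L L₀ with hlt | hge
  · have h1 : X < Real.exp L₀ := by
      rw [hL] at hlt
      exact (Real.log_lt_iff_lt_exp hX0).1 hlt
    calc (S.card : ℝ) ≤ 2 * X + 1 := hS3
      _ ≤ 2 * Real.exp L₀ + 1 := by linarith
      _ ≤ max 2 (2 * Real.exp L₀ + 1) := le_max_right _ _
      _ = max 2 (2 * Real.exp L₀ + 1) * 1 := (mul_one _).symm
      _ ≤ max 2 (2 * Real.exp L₀ + 1) * X ^ θ := by
          refine mul_le_mul_of_nonneg_left hXθ ?_
          exact le_trans (by positivity) (le_max_right _ _)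
  have hL1 : 0 ≤ L := by rw [hL]; exact Real.log_nonneg (by linarith)
  have hcL : C₄ + 1 ≤ c₀ * L := by
    rw [hL₀, div_le_iff₀ hc₀0] at hge
    linarith
  obtain ⟨M, hM⟩ : ∃ M : ℕ, M = ⌊X ^ θ⌋₊ := ⟨_, rfl⟩
  rw [← hM] at hS1
  have hM1 : 1 ≤ M := by rw [hM]; exact Nat.le_floor (by exact_mod_cast hXθ)
  have hMX : (M : ℝ) ≤ X ^ θ := by rw [hM]; exact Nat.floor_le (by positivity)
  have hMX2 : X ^ θ / 2 ≤ M := by rw [hM]; exact half_le_floor hXθ
  have hθL : θ * L = Real.log (X ^ θ) := by rw [hL, Real.log_rpow hX0]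
  have hlogM : θ * L - Real.log 2 ≤ Real.log M := by
    rw [hθL, ← Real.log_div (by positivity) (by norm_num)]
    exact Real.log_le_log (by positivity) hMX2
  obtain ⟨P, hP⟩ : ∃ P : Finset ℕ, P = (PP M).filter (fun p => P₂ < p) := ⟨_, rfl⟩
  have hPp : ∀ p ∈ P, p.Prime ∧ P₁ < p ∧ U < p ∧ N < p := by
    intro p hp
    rw [hP, mem_filter, mem_filter] at hp
    have h3 := hp.2
    rw [hP₂] at h3
    exact ⟨hp.1.2, lt_of_le_of_lt (le_max_left _ _) h3,
      lt_of_le_of_lt ((le_max_left _ _).trans (le_max_right _ _)) h3,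
      lt_of_le_of_lt ((le_max_right _ _).trans (le_max_right _ _)) h3⟩
  have hunit : ∀ p ∈ P, ∃ c : (ZMod N)ˣ, (p : ZMod N) = c := by
    intro p hp
    have h3 := hPp p hp
    have h4 : IsUnit ((p : ℕ) : ZMod N) := by
      rw [ZMod.isUnit_iff_coprime]
      exact (Nat.Prime.coprime_iff_not_dvd h3.1).2 fun h5 => by
        have := Nat.le_of_dvd (Nat.pos_of_ne_zero (NeZero.ne N)) h5
        omega
    obtain ⟨c, hc⟩ := h4
    exact ⟨c, hc.symm⟩
  -- the weights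
  obtain ⟨W, hW⟩ : ∃ W : ℕ → ℝ, W = fun p => Gw g p * (1 - U / p) := ⟨_, rfl⟩
  have hfac : ∀ p ∈ P, 0 ≤ 1 - (U : ℝ) / p ∧ 1 - (U : ℝ) / p ≤ 1 := by
    intro p hp
    have h3 := hPp p hp
    have hp0 : (0 : ℝ) < p := by exact_mod_cast h3.1.pos
    have h4 : (U : ℝ) / p ≤ 1 := by
      rw [div_le_one hp0]
      exact_mod_cast h3.2.2.1.le
    have h5 : 0 ≤ (U : ℝ) / p := by positivity
    constructor <;> linarith
  have hGB : ∀ p ∈ P, Gw g p ≤ B := by
    intro p hp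
    obtain ⟨c, hc⟩ := hunit p hp
    rw [Gw_eq g hc]
    exact hgB c
  have hW0 : ∀ p ∈ P, 0 ≤ W p := by
    intro p hp
    rw [hW]
    exact mul_nonneg (Gw_nonneg hg p) (hfac p hp).1
  have hWB : ∀ p ∈ P, W p ≤ B := by
    intro p hp
    rw [hW]
    have h3 := mul_le_mul_of_nonneg_left (hfac p hp).2 (Gw_nonneg hg p)
    rw [mul_one] at h3
    exact h3.trans (hGB p hp)
  have hT : ∀ p ∈ P, ∀ T : Finset (ZMod p), (∀ t ∈ T, ∃ q : ℤ, (q : ZMod p) = t ∧ A p q) →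
      (T.card : ℝ) * W p ≤ p := by
    intro p hp T hT
    obtain ⟨c, hc⟩ := hunit p hp
    have h3 := hA p (hPp p hp).1 (hPp p hp).2.1 c hc T hT
    have hp0 : (0 : ℝ) < p := by exact_mod_cast (hPp p hp).1.pos
    rw [hW]
    show (T.card : ℝ) * (Gw g p * (1 - U / p)) ≤ p
    rw [Gw_eq g hc, ← mul_assoc]
    calc (T.card : ℝ) * g c * (1 - U / p) ≤ (p + U) * (1 - U / p) :=
          mul_le_mul_of_nonneg_right h3 (hfac p hp).1
      _ = p - U ^ 2 / p := by field_simp; ring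
      _ ≤ p := by
          have : 0 ≤ (U : ℝ) ^ 2 / p := by positivity
          linarith
  -- the sum of the weights
  have hsum : Av * (θ * L) - (Av * Real.log 2 + C₁ + C₃ + B * U * C₂) ≤
      ∑ p ∈ P, Real.log p / p * W p := by
    have e1 := hC₁ M hM1
    rw [← hAv] at e1
    have e2 : Av * (θ * L - Real.log 2) ≤ Av * Real.log M := mul_le_mul_of_nonneg_left hlogM hAv0
    have e3 : ∑ p ∈ PP M, Real.log p / p * Gw g p ≤ ∑ p ∈ P, Real.log p / p * Gw g p + C₃ := by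
      have h1 : PP M ⊆ P ∪ PP P₂ := by
        intro p hp
        have hp' := hp
        rw [mem_filter, mem_Icc] at hp
        rw [mem_union]
        rcases Nat.lt_or_ge P₂ p with h | h
        · left
          rw [hP, mem_filter]
          exact ⟨hp', h⟩
        · right
          rw [mem_filter, mem_Icc]
          exact ⟨⟨hp.1.1, h⟩, hp.2⟩
      refine (sum_le_sum_of_subset_of_nonneg h1 fun p _ _ => hterm0 p).trans ?_
      have e1 := sum_union_inter (s₁ := P) (s₂ := PP P₂) (f := fun p : ℕ => Real.log p / p * Gw g p)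
      have e3 : 0 ≤ ∑ p ∈ P ∩ PP P₂, Real.log p / p * Gw g p := sum_nonneg fun p _ => hterm0 p
      rw [hC₃]
      linarith
    have e4 : ∑ p ∈ P, Real.log p / p * Gw g p ≤ ∑ p ∈ P, Real.log p / p * W p + B * U * C₂ := by
      have h3 : ∀ p ∈ P, Real.log p / p * Gw g p ≤ Real.log p / p * W p +
          B * U * (Real.log p / (p * (p - 1))) := by
        intro p hp
        have h4 := hPp p hp
        have hp2 : (2 : ℝ) ≤ p := by exact_mod_cast h4.1.two_le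
        have hp0 : (0 : ℝ) < p := by linarith
        have hlog : 0 ≤ Real.log (p : ℝ) := Real.log_natCast_nonneg p
        have h5 : Real.log p / p * Gw g p = Real.log p / p * W p + Gw g p * U * (Real.log p / (p * p)) := by
          rw [hW]
          field_simp
          ring
        rw [h5]
        refine add_le_add le_rfl ?_
        have h6 : Real.log p / ((p : ℝ) * p) ≤ Real.log p / (p * (p - 1)) := by
          refine div_le_div_of_nonneg_left hlog (by nlinarith) ?_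
          nlinarith
        calc Gw g p * U * (Real.log p / (p * p)) ≤ B * U * (Real.log p / (p * p)) :=
              mul_le_mul_of_nonneg_right (mul_le_mul_of_nonneg_right (hGB p hp) (Nat.cast_nonneg _))
                (by positivity)
          _ ≤ _ := mul_le_mul_of_nonneg_left h6 (by positivity)
      refine (sum_le_sum h3).trans ?_
      rw [sum_add_distrib, ← mul_sum]
      refine add_le_add le_rfl (mul_le_mul_of_nonneg_left ?_ (by positivity))
      refine le_trans ?_ (hC₂ M)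
      refine sum_le_sum_of_subset_of_nonneg (by rw [hP]; exact filter_subset _ _) fun p hp _ => ?_
      have hp2 : (2 : ℝ) ≤ p := by exact_mod_cast (mem_filter.1 hp).2.two_le
      exact div_nonneg (Real.log_natCast_nonneg p) (by nlinarith)
    linarith
  have hE : ∀ q ∈ S, ∑ p ∈ P with ¬ A p q, Real.log p / p ≤ η * L + |K| := by
    intro q hq
    have h3 := (hS1 q hq).2
    have h4 : ∑ p ∈ P with ¬ A p q, Real.log p / p ≤
        ∑ p ∈ Icc 1 M with p.Prime ∧ ¬ A p q, Real.log p / p := by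
      refine sum_le_sum_of_subset_of_nonneg ?_ fun p _ _ =>
        div_nonneg (Real.log_natCast_nonneg p) (Nat.cast_nonneg p)
      intro p hp
      rw [mem_filter] at hp
      have hp1 := hPp p hp.1
      have hp2 := hp.1
      rw [hP, mem_filter, mem_filter] at hp2
      rw [mem_filter]
      exact ⟨hp2.1.1, hp1.1, hp.2⟩
    have h5 := le_abs_self K
    linarith
  have hmain := weighted3 (fun p hp => (hPp p hp).1) A W hW0 hWB hT
    (by linarith : (1 : ℝ) ≤ X) (fun q hq => (hS1 q hq).1) (E := η * L + |K|) (t := t)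
    (by positivity) ht0.le hB0 hE
  have hth : ∑ p ∈ P, Real.log p ≤ 2 * X ^ θ := by
    have h1 : ∑ p ∈ P, Real.log p ≤ ∑ p ∈ PP M, Real.log p := by
      rw [hP]
      refine sum_le_sum_of_subset_of_nonneg (filter_subset _ _) fun p _ _ => ?_
      exact Real.log_natCast_nonneg p
    have h2 := theta_le M
    linarith
  have hlog2 : Real.log (2 * X) = Real.log 2 + L := by
    rw [Real.log_mul (by norm_num) hX0.ne', hL]
  have hbr : 1 ≤ (2 * t - t ^ 2) * ∑ p ∈ P, Real.log p / p * W p - 2 * t * B * (η * L + |K|) -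
      Real.log (2 * X) := by
    have h3 := mul_le_mul_of_nonneg_left hsum ht2
    rw [hlog2]
    have h4 : c₀ * L = (2 * t - t ^ 2) * (Av * (θ * L)) - 2 * t * B * (η * L) - L := by
      rw [← hkey, ha, hb]; ring
    have h5 : C₄ + 1 ≤ (2 * t - t ^ 2) * (Av * (θ * L)) - 2 * t * B * (η * L) - L := by
      rw [← h4]; exact hcL
    rw [hC₄] at h5
    nlinarith
  have hS0 : (0 : ℝ) ≤ S.card := Nat.cast_nonneg _
  calc (S.card : ℝ) = S.card * 1 := (mul_one _).symm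
    _ ≤ S.card * ((2 * t - t ^ 2) * ∑ p ∈ P, Real.log p / p * W p - 2 * t * B * (η * L + |K|) -
      Real.log (2 * X)) := mul_le_mul_of_nonneg_left hbr hS0
    _ ≤ ∑ p ∈ P, Real.log p := hmain
    _ ≤ 2 * X ^ θ := hth
    _ ≤ _ := mul_le_mul_of_nonneg_right (le_max_left _ _) (by positivity)

end Pool.Agent.Helper84.AP
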