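import Pool.Agent.H387R2.U3
import Pool.Agent.Helper923.HMertens

set_option autoImplicit false

/-!
# Mertens' theorem with `log p / p` in arithmetic progressions

From the prime number theorem in arithmetic progressions; the summation by parts is adapted from
`Pool.Agent.Y669.Mer`.
-/

namespace Pool.Agent.Helper84.AP

open Finset Filter Pool.Agent.Helper923.HMertens

lemma step2 (n : ℕ) (hn : 3 ≤ n) (hl : 1 ≤ Real.log n) :
    1 / (((n + 1 : ℕ) : ℝ) * Real.log n ^ 2) ≤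
      2 * (1 / Real.log n - 1 / Real.log ((n + 1 : ℕ) : ℝ)) := by
  have hn0 : (3:ℝ) ≤ n := by exact_mod_cast hn
  set a := Real.log n with ha
  set b := Real.log ((n + 1 : ℕ) : ℝ) with hb
  have hab : a ≤ b := Real.log_le_log (by linarith) (by push_cast; linarith)
  have hb0 : 0 < b := by linarith
  have hdiff : 1 / ((n + 1 : ℕ) : ℝ) ≤ b - a := by
    have h1 := Real.one_sub_inv_le_log_of_pos (x := ((n + 1 : ℕ) : ℝ) / n) (by positivity)
    rw [Real.log_div (by positivity) (by positivity)] at h1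
    rw [inv_div] at h1
    have h2 : 1 - (n:ℝ) / ((n + 1 : ℕ) : ℝ) = 1 / ((n + 1 : ℕ) : ℝ) := by
      push_cast; field_simp; ring
    linarith
  have hb2 : b ≤ 2 * a := by
    have h1 : ((n + 1 : ℕ) : ℝ) ≤ (n:ℝ) ^ 2 := by push_cast; nlinarith
    have h2 : b ≤ Real.log ((n:ℝ) ^ 2) := Real.log_le_log (by positivity) h1
    rw [Real.log_pow] at h2
    push_cast at h2
    exact h2
  have ha0 : 0 < a := by linarith
  have e1 : 1 / a - 1 / b = (b - a) / (a * b) := by field_simp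
  rw [e1]
  calc 1 / (((n + 1 : ℕ) : ℝ) * a ^ 2) = (1 / ((n + 1 : ℕ) : ℝ)) * (1 / a ^ 2) := by
        field_simp
    _ ≤ (b - a) * (2 / (a * b)) := by
        refine mul_le_mul hdiff ?_ (by positivity) (by linarith)
        rw [div_le_div_iff₀ (by positivity) (by positivity)]
        nlinarith
    _ = 2 * ((b - a) / (a * b)) := by ring

lemma weight_step (n : ℕ) (hn : 3 ≤ n) (hl : 1 ≤ Real.log n) :
    0 ≤ Real.log n / n - Real.log ((n + 1 : ℕ) : ℝ) / ((n + 1 : ℕ) : ℝ) ∧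
      Real.log n / n - Real.log ((n + 1 : ℕ) : ℝ) / ((n + 1 : ℕ) : ℝ) ≤
        Real.log n / (n * ((n + 1 : ℕ) : ℝ)) := by
  have hn0 : (3:ℝ) ≤ n := by exact_mod_cast hn
  have hN : (0:ℝ) < ((n + 1 : ℕ) : ℝ) := by positivity
  have hn1 : (0:ℝ) < n := by linarith
  have h1 := Real.log_le_sub_one_of_pos (x := ((n + 1 : ℕ) : ℝ) / n) (by positivity)
  rw [Real.log_div (by positivity) (by positivity)] at h1
  have h2 : ((n + 1 : ℕ) : ℝ) / n - 1 = 1 / n := by push_cast; field_simp; ring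
  rw [h2] at h1
  have h3 : Real.log ((n + 1 : ℕ) : ℝ) ≤ Real.log n + 1 / n := by linarith
  have h4 : Real.log n ≤ Real.log ((n + 1 : ℕ) : ℝ) :=
    Real.log_le_log hn1 (by push_cast; linarith)
  constructor
  · rw [sub_nonneg, div_le_div_iff₀ hN hn1]
    have h5 : (n : ℝ) * (1 / n) = 1 := by field_simp
    calc Real.log ((n + 1 : ℕ) : ℝ) * n ≤ (Real.log n + 1 / n) * n :=
          mul_le_mul_of_nonneg_right h3 hn1.le
      _ = Real.log n * n + 1 := by rw [add_mul, one_div, inv_mul_cancel₀ hn1.ne']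
      _ ≤ Real.log n * n + Real.log n := by linarith
      _ = Real.log n * ((n + 1 : ℕ) : ℝ) := by push_cast; ring
  · have h5 : Real.log n / n - Real.log n / ((n + 1 : ℕ) : ℝ) = Real.log n / (n * ((n + 1 : ℕ) : ℝ)) := by
      push_cast
      field_simp
      ring
    rw [← h5]
    have h6 : Real.log n / ((n + 1 : ℕ) : ℝ) ≤ Real.log ((n + 1 : ℕ) : ℝ) / ((n + 1 : ℕ) : ℝ) :=
      div_le_div_of_nonneg_right h4 hN.le
    linarith

lemma abel_log (T D : ℕ → ℝ) (hT : ∀ n, T (n + 1) = T n +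
      (D (n + 1) - D n) * (Real.log ((n + 1 : ℕ) : ℝ) / ((n + 1 : ℕ) : ℝ)))
    (M : ℕ) (hM : 3 ≤ M) (hl : 1 ≤ Real.log M)
    (hD : ∀ n : ℕ, M ≤ n → |D n| ≤ n / Real.log n ^ 6) (N : ℕ) (hN : M ≤ N) :
    |T N - T M - D N * (Real.log N / N) + D M * (Real.log M / M)| ≤
      2 * (1 / Real.log M - 1 / Real.log N) := by
  induction N, hN using Nat.le_induction with
  | base => simp
  | succ N hN ih =>
    have hN3 : 3 ≤ N := hM.trans hN
    have hNr : (3:ℝ) ≤ N := by exact_mod_cast hN3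
    have hlN : 1 ≤ Real.log N := hl.trans (Real.log_le_log (by exact_mod_cast (by omega : 0 < M))
      (by exact_mod_cast hN))
    have hs := step2 N hN3 hlN
    obtain ⟨w1, w2⟩ := weight_step N hN3 hlN
    have e : T (N + 1) - T M - D (N + 1) * (Real.log ((N + 1 : ℕ) : ℝ) / ((N + 1 : ℕ) : ℝ)) +
        D M * (Real.log M / M) =
        (T N - T M - D N * (Real.log N / N) + D M * (Real.log M / M)) +
          D N * (Real.log N / N - Real.log ((N + 1 : ℕ) : ℝ) / ((N + 1 : ℕ) : ℝ)) := by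
      rw [hT]
      ring
    rw [e]
    refine (abs_add_le _ _).trans ?_
    have h2 : |D N * (Real.log N / N - Real.log ((N + 1 : ℕ) : ℝ) / ((N + 1 : ℕ) : ℝ))| ≤
        1 / (((N + 1 : ℕ) : ℝ) * Real.log N ^ 2) := by
      rw [abs_mul, abs_of_nonneg w1]
      calc |D N| * (Real.log N / N - Real.log ((N + 1 : ℕ) : ℝ) / ((N + 1 : ℕ) : ℝ))
          ≤ (N / Real.log N ^ 6) * (Real.log N / (N * ((N + 1 : ℕ) : ℝ))) :=
            mul_le_mul (hD N hN) w2 w1 (by positivity)
        _ = (1 / ((N + 1 : ℕ) : ℝ)) * (1 / Real.log N ^ 5) := by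
            have : (0:ℝ) < N := by linarith
            have : (0:ℝ) < Real.log N := by linarith
            field_simp
        _ ≤ (1 / ((N + 1 : ℕ) : ℝ)) * (1 / Real.log N ^ 2) := by
            refine mul_le_mul_of_nonneg_left ?_ (by positivity)
            refine one_div_le_one_div_of_le (by positivity) ?_
            exact pow_le_pow_right₀ hlN (by norm_num)
        _ = _ := by field_simp
    linarith

lemma abel_log' (T D : ℕ → ℝ) (hT : ∀ n, T (n + 1) = T n +
      (D (n + 1) - D n) * (Real.log ((n + 1 : ℕ) : ℝ) / ((n + 1 : ℕ) : ℝ)))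
    (M : ℕ) (hM : 3 ≤ M) (hl : 1 ≤ Real.log M)
    (hD : ∀ n : ℕ, M ≤ n → |D n| ≤ n / Real.log n ^ 6) (N : ℕ) (hN : M ≤ N) :
    |T N - T M| ≤ 4 := by
  have h := abel_log T D hT M hM hl hD N hN
  have hlN : Real.log M ≤ Real.log N := Real.log_le_log (by exact_mod_cast (by omega : 0 < M))
      (by exact_mod_cast hN)
  have hb : ∀ n : ℕ, M ≤ n → |D n * (Real.log n / n)| ≤ 1 := by
    intro n hn
    have hn0 : (0:ℝ) < n := by exact_mod_cast (by omega : 0 < n)
    have hln : Real.log M ≤ Real.log n := Real.log_le_log (by exact_mod_cast (by omega : 0 < M))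
      (by exact_mod_cast hn)
    have hl1 : 1 ≤ Real.log n := hl.trans hln
    have hl0 : 0 < Real.log n := by linarith
    rw [abs_mul, abs_of_nonneg (by positivity : 0 ≤ Real.log n / n)]
    calc |D n| * (Real.log n / n) ≤ (n / Real.log n ^ 6) * (Real.log n / n) :=
          mul_le_mul_of_nonneg_right (hD n hn) (by positivity)
      _ = 1 / Real.log n ^ 5 := by field_simp
      _ ≤ 1 := by
          rw [div_le_one (by positivity)]
          exact one_le_pow₀ hl1
  have h1 := hb N hN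
  have h2 := hb M le_rfl
  have h3 : 0 ≤ 1 / Real.log N := by
    have : 0 < Real.log N := by linarith
    positivity
  have h4 : 1 / Real.log M ≤ 1 := by
    rw [div_le_one (by linarith)]
    exact hl
  rw [abs_le] at h h1 h2 ⊢
  constructor <;> linarith [h.1, h.2, h1.1, h1.2, h2.1, h2.2]

lemma filt_succ (p : ℕ → Prop) [DecidablePred p] (f : ℕ → ℝ) (n : ℕ) :
    ∑ q ∈ (Icc 1 (n + 1)).filter p, f q = ∑ q ∈ (Icc 1 n).filter p, f q +
      if p (n + 1) then f (n + 1) else 0 := by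
  rw [sum_filter, sum_filter, sum_Icc_succ_top (by omega)]

/-- Mertens' theorem for a set of primes with a strong form of the prime number theorem. -/
theorem mer_log_of (A : ℕ → Prop) [DecidablePred A] (δ K : ℝ) (hK : 0 < K) (x0 : ℕ)
    (h : ∀ x : ℕ, x0 ≤ x → |(((Icc 1 x).filter (fun p => p.Prime ∧ A p)).card : ℝ) -
      δ * H343E.pi1 x| ≤ K * (x / Real.log x ^ 6)) :
    ∃ C : ℝ, 0 ≤ C ∧ ∀ x : ℕ, 1 ≤ x →
      |∑ p ∈ (Icc 1 x).filter (fun p => p.Prime ∧ A p), Real.log p / p -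
        δ * Real.log x| ≤ C := by
  obtain ⟨C1, hC1⟩ := mertens_log
  have hC10 : 0 ≤ C1 := (abs_nonneg _).trans (hC1 1 le_rfl)
  obtain ⟨S, hS⟩ : ∃ S : ℕ → ℝ, S = fun x => ∑ p ∈ (Icc 1 x).filter (fun p => p.Prime ∧ A p),
    Real.log p / p := ⟨_, rfl⟩
  obtain ⟨P, hP⟩ : ∃ P : ℕ → ℝ, P = fun x => ∑ p ∈ (Icc 1 x).filter Nat.Prime,
    Real.log p / p := ⟨_, rfl⟩
  obtain ⟨D, hD⟩ : ∃ D : ℕ → ℝ, D = fun x => ((((Icc 1 x).filter (fun p => p.Prime ∧ A p)).card : ℝ)
    - δ * H343E.pi1 x) / K := ⟨_, rfl⟩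
  obtain ⟨T, hT⟩ : ∃ T : ℕ → ℝ, T = fun x => (S x - δ * P x) / K := ⟨_, rfl⟩
  have hcard : ∀ x : ℕ, (((Icc 1 x).filter (fun p => p.Prime ∧ A p)).card : ℝ) =
      ∑ p ∈ (Icc 1 x).filter (fun p => p.Prime ∧ A p), (1 : ℝ) := by
    intro x
    rw [sum_const, nsmul_eq_mul, mul_one]
  have hpi : ∀ x : ℕ, H343E.pi1 x = ∑ p ∈ (Icc 1 x).filter Nat.Prime, (1 : ℝ) := by
    intro x
    rw [sum_const, nsmul_eq_mul, mul_one]
    rfl
  have hTs : ∀ n, T (n + 1) = T n +
      (D (n + 1) - D n) * (Real.log ((n + 1 : ℕ) : ℝ) / ((n + 1 : ℕ) : ℝ)) := by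
    intro n
    have f1 := filt_succ (fun p => p.Prime ∧ A p) (fun p => Real.log (p : ℝ) / p) n
    have f2 := filt_succ Nat.Prime (fun p => Real.log (p : ℝ) / p) n
    have f3 := filt_succ (fun p => p.Prime ∧ A p) (fun _ => (1 : ℝ)) n
    have f4 := filt_succ Nat.Prime (fun _ => (1 : ℝ)) n
    rw [hT, hD]
    simp only
    rw [hS, hP]
    simp only
    rw [f1, f2, hcard, hcard, hpi, hpi, f3, f4]
    have h0 : ((n + 1 : ℕ) : ℝ) ≠ 0 := by positivity
    have hK0 : K ≠ 0 := hK.ne'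
    by_cases h1 : (n + 1).Prime <;> by_cases h2 : A (n + 1) <;> simp only [h1, h2, and_self,
      and_true, and_false, if_true, if_false] <;> field_simp <;> ring
  set M : ℕ := x0 + 3 with hM
  have hM3 : 3 ≤ M := by omega
  have hlog3 : 1 ≤ Real.log (3 : ℝ) := by
    rw [Real.le_log_iff_exp_le (by norm_num)]
    exact Real.exp_one_lt_d9.le.trans (by norm_num)
  have hlM : ∀ n : ℕ, 3 ≤ n → 1 ≤ Real.log n := fun n hn => hlog3.trans
    (Real.log_le_log (by norm_num) (by exact_mod_cast hn))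
  have hDb : ∀ n : ℕ, M ≤ n → |D n| ≤ n / Real.log n ^ 6 := by
    intro n hn
    rw [hD]
    simp only
    rw [abs_div, abs_of_pos hK, div_le_iff₀ hK, mul_comm ((n : ℝ) / Real.log n ^ 6) K]
    exact h n (by omega)
  have hab := abel_log' T D hTs M hM3 (hlM M hM3) hDb
  obtain ⟨B, hB⟩ : ∃ B : ℝ, B = ∑ x ∈ Icc 0 M, |S x - δ * Real.log x| := ⟨_, rfl⟩
  have hB0 : 0 ≤ B := by rw [hB]; exact sum_nonneg fun _ _ => abs_nonneg _
  refine ⟨B + K * 4 + |K * T M| + |δ| * C1, by positivity, fun x hx => ?_⟩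
  have e0 : ∑ p ∈ (Icc 1 x).filter (fun p => p.Prime ∧ A p), Real.log p / p = S x := by rw [hS]
  rw [e0]
  rcases le_or_gt x M with hxM | hxM
  · have h1 : |S x - δ * Real.log x| ≤ B := by
      rw [hB]
      exact single_le_sum (f := fun x : ℕ => |S x - δ * Real.log x|)
        (fun _ _ => abs_nonneg _) (mem_Icc.2 ⟨Nat.zero_le _, hxM⟩)
    have h2 : 0 ≤ K * 4 + |K * T M| + |δ| * C1 := by positivity
    linarith
  · have h1 := hab x hxM.le
    have h2 := hC1 x hx
    have h3 : S x = K * T x + δ * P x := by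
      rw [hT]
      field_simp
      ring
    have e1 : S x - δ * Real.log x = K * (T x - T M) + K * T M +
        δ * (P x - Real.log x) := by
      rw [h3]; ring
    rw [e1]
    have h5 : |K * (T x - T M)| ≤ K * 4 := by
      rw [abs_mul, abs_of_pos hK]
      exact mul_le_mul_of_nonneg_left h1 hK.le
    have h6 : |δ * (P x - Real.log x)| ≤ |δ| * C1 := by
      rw [abs_mul]
      refine mul_le_mul_of_nonneg_left ?_ (abs_nonneg _)
      rw [hP]
      exact h2
    have h7 := abs_add_le (K * (T x - T M) + K * T M) (δ * (P x - Real.log x))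
    have h8 := abs_add_le (K * (T x - T M)) (K * T M)
    linarith

/-- Mertens' theorem in arithmetic progressions. -/
theorem mer_ap (N : ℕ) [NeZero N] (c : (ZMod N)ˣ) : ∃ C : ℝ, 0 ≤ C ∧ ∀ x : ℕ, 1 ≤ x →
      |∑ p ∈ (Icc 1 x).filter (fun p : ℕ => p.Prime ∧ (p : ZMod N) = c), Real.log p / p -
        (1 / (Nat.totient N : ℝ)) * Real.log x| ≤ C := by
  classical
  obtain ⟨x0, hx0⟩ := Pool.Agent.H387R2.Uni.siegel
  have hN1 : 1 ≤ N := Nat.one_le_iff_ne_zero.2 (NeZero.ne N)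
  have hlogx : Tendsto (fun x : ℕ => Real.log (x:ℝ)) atTop atTop :=
    Real.tendsto_log_atTop.comp tendsto_natCast_atTop_atTop
  obtain ⟨x1, hx1⟩ := eventually_atTop.1 (hlogx.eventually_ge_atTop (N : ℝ))
  refine mer_log_of (fun p : ℕ => (p : ZMod N) = c) (1 / (Nat.totient N : ℝ)) 1 one_pos
    (max x0 x1) fun x hx => ?_
  have hNx : (N : ℝ) ≤ Real.log x ^ 2 := by
    have h1 := hx1 x ((le_max_right _ _).trans hx)
    have h2 : (1 : ℝ) ≤ N := by exact_mod_cast hN1
    nlinarith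
  have h1 := hx0 x ((le_max_left _ _).trans hx) N hN1 hNx (c : ZMod N).val (ZMod.val_lt _)
    (ZMod.val_coe_unit_coprime c)
  rw [one_mul, div_mul_eq_mul_div, one_mul]
  refine le_trans (le_of_eq ?_) h1
  congr 2
  unfold H343E.piAP
  congr 2
  refine filter_congr fun p _ => ?_
  refine and_congr_right fun _ => ?_
  rw [← ZMod.natCast_eq_natCast_iff, ZMod.natCast_zmod_val]

end Pool.Agent.Helper84.AP
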