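import Pool.Agent.Helper84.AP.Rec
import Pool.Agent.W432.HK.Ord

set_option autoImplicit false

/-!
# The recurrence of a family of operators
-/

namespace Pool.Agent.Helper84.AP

open Finset Polynomial Pool.Agent.W432.HK

variable {K : Type*} [Field K] {n d : ℕ}

lemma euler (y : K[X]) (i s : ℕ) :
    (X ^ i * derivative^[i] y).coeff s = (descPochhammer K i).eval (s : K) * y.coeff s := by
  rw [descPochhammer_eval_eq_descFactorial]
  rcases lt_or_ge s i with h | h
  · rw [Nat.descFactorial_eq_zero_iff_lt.2 h, coeff_X_pow_mul', if_neg (by omega)]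
    simp
  · rw [coeff_X_pow_mul', if_pos h, coeff_iterate_derivative, Nat.sub_add_cancel h, nsmul_eq_mul]

/-- The terms of the recurrence as polynomials in the parameter. -/
noncomputable def FF (a : Fin d → Fin (n + 1) → K[X]) (r : K[X]) (j : ℕ) (s : K) : K[X] :=
  ∑ i : Fin (n + 1), (∑ k : Fin d, monomial (k : ℕ) ((a k i).coeff j)) *
    C ((descPochhammer K i).eval s) + monomial d ((X * r).coeff j)

/-- The coefficients of the operator for a value of the parameter. -/
noncomputable def AA (a : Fin d → Fin (n + 1) → K[X]) (r : K[X]) (q : K) (i : Fin (n + 1)) : K[X] :=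
  ∑ k : Fin d, C (q ^ (k : ℕ)) * a k i + if i = 0 then C (q ^ d) * (X * r) else 0

variable (a : Fin d → Fin (n + 1) → K[X]) (r : K[X])

lemma eval_FF (j : ℕ) (s q : K) : (FF a r j s).eval q =
    ∑ i : Fin (n + 1), (AA a r q i).coeff j * (descPochhammer K i).eval s := by
  have h1 : ∀ i : Fin (n + 1), (AA a r q i).coeff j * (descPochhammer K i).eval s =
      (∑ k : Fin d, q ^ (k : ℕ) * (a k i).coeff j) * (descPochhammer K i).eval s +
        if i = 0 then q ^ d * (X * r).coeff j else 0 := by
    intro i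
    unfold AA
    rw [coeff_add, finsetSum_coeff, add_mul]
    simp only [coeff_C_mul]
    congr 1
    split_ifs with h
    · subst h
      rw [coeff_C_mul]
      simp
    · simp
  rw [sum_congr rfl fun i _ => h1 i, sum_add_distrib, sum_ite_eq' univ (0 : Fin (n + 1)) _,
    if_pos (mem_univ _)]
  unfold FF
  rw [eval_add, eval_monomial, eval_finsetSum]
  congr 1
  · refine sum_congr rfl fun i _ => ?_
    rw [eval_mul, eval_C, eval_finsetSum]
    congr 1
    refine sum_congr rfl fun k _ => ?_
    rw [eval_monomial, mul_comm]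
  · ring

lemma coeff_op (q : K) (y : K[X]) (M : ℕ) :
    (∑ i : Fin (n + 1), AA a r q i * (X ^ (i : ℕ) * derivative^[(i : ℕ)] y)).coeff M =
      ∑ s ∈ range (M + 1), (FF a r (M - s) ((s : ℕ) : K)).eval q * y.coeff s := by
  rw [finsetSum_coeff]
  have h1 : ∀ i : Fin (n + 1), (AA a r q i * (X ^ (i : ℕ) * derivative^[(i : ℕ)] y)).coeff M =
      ∑ s ∈ range (M + 1), ((descPochhammer K i).eval (s : K) * y.coeff s) *
        (AA a r q i).coeff (M - s) := by
    intro i
    have h2 := Finset.Nat.sum_antidiagonal_eq_sum_range_succ (M := K)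
      (fun x y' : ℕ => ((X : K[X]) ^ (i : ℕ) * derivative^[(i : ℕ)] y).coeff x *
        (AA a r q i).coeff y') M
    rw [mul_comm, coeff_mul]
    refine h2.trans ?_
    exact sum_congr rfl fun s _ => by rw [euler]
  rw [sum_congr rfl fun i _ => h1 i, sum_comm]
  refine sum_congr rfl fun s _ => ?_
  rw [eval_FF, sum_mul]
  exact sum_congr rfl fun i _ => by ring

lemma deg_FF {j : ℕ} {s : K} (_hj : 1 ≤ j) : (FF a r j s).natDegree ≤ d := by
  unfold FF
  refine (natDegree_add_le _ _).trans (max_le ?_ (natDegree_monomial_le _))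
  refine natDegree_sum_le_of_forall_le _ _ fun i _ => ?_
  refine (natDegree_mul_C_le _ _).trans (natDegree_sum_le_of_forall_le _ _ fun k _ => ?_)
  exact (natDegree_monomial_le _).trans k.2.le

lemma coeff_FF_one (s : K) : (FF a r 1 s).coeff d = r.coeff 0 := by
  unfold FF
  rw [coeff_add, finsetSum_coeff]
  have h1 : ∀ i ∈ (univ : Finset (Fin (n + 1))),
      ((∑ k : Fin d, monomial (k : ℕ) ((a k i).coeff 1)) * C ((descPochhammer K i).eval s)).coeff d = 0 := by
    intro i _
    rw [coeff_mul_C, finsetSum_coeff]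
    have h2 : ∀ k ∈ (univ : Finset (Fin d)), (monomial (k : ℕ) ((a k i).coeff 1)).coeff d = 0 := by
      intro k _
      rw [coeff_monomial, if_neg (by have := k.2; omega)]
    rw [sum_eq_zero h2, zero_mul]
  rw [sum_eq_zero h1, zero_add, coeff_monomial, if_pos rfl, coeff_X_mul]

/-- The recurrence for the coefficients of a solution. -/
lemma recurrence {q e : K} {P0 : K → K} (hP0 : ∀ s, (FF a r 0 s).eval q = P0 s) {y : K[X]}
    (hy : ∑ i : Fin (n + 1), AA a r q i * (X ^ (i : ℕ) * derivative^[(i : ℕ)] y) = 0) {t : ℕ}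
    (ht : ∀ s < t, y.coeff s = 0) (he : (t : K) = e) (m : ℕ) :
    P0 (e + ((m : ℕ) : K)) * y.coeff (t + m) +
      ∑ j : Fin m, (FF a r (m - j) (e + ((j : ℕ) : K))).eval q * y.coeff (t + j) = 0 := by
  have h1 := congrArg (fun f => f.coeff (t + m)) hy
  simp only [coeff_zero] at h1
  rw [coeff_op, add_assoc, sum_range_add, sum_range_succ] at h1
  have h0 : ∑ x ∈ range t, (FF a r (t + m - x) ((x : ℕ) : K)).eval q * y.coeff x = 0 :=
    sum_eq_zero fun x hx => by rw [ht x (mem_range.1 hx), mul_zero]
  rw [h0, zero_add, sum_range] at h1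
  rw [Nat.sub_self, hP0] at h1
  have h2 : ∑ j : Fin m, (FF a r (t + m - (t + j)) (((t + j : ℕ)) : K)).eval q * y.coeff (t + j) =
      ∑ j : Fin m, (FF a r (m - j) (e + ((j : ℕ) : K))).eval q * y.coeff (t + j) := by
    refine sum_congr rfl fun j _ => ?_
    rw [Nat.add_sub_add_left]
    push_cast
    rw [he]
  rw [h2] at h1
  push_cast at h1
  rw [he] at h1
  rw [add_comm]
  exact h1

end Pool.Agent.Helper84.AP
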