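import Mathlib

set_option autoImplicit false

/-!
# The resonance polynomials of a family with accessory parameters
-/

namespace Pool.Agent.Helper84.AP

open Finset Polynomial

variable {K : Type*} [Field K]

/-- The coefficients of the formal solution with the exponent `e`, polynomials in the parameter. -/
noncomputable def cc (F : ℕ → K → K[X]) (P0 : K → K) (e : K) : ℕ → K[X]
  | 0 => 1
  | m + 1 => C (-(P0 (e + ((m + 1 : ℕ) : K)))⁻¹) *
      ∑ j : Fin (m + 1), F (m + 1 - j) (e + ((j : ℕ) : K)) * cc F P0 e j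
termination_by m => m
decreasing_by exact j.2

/-- The resonance polynomial. -/
noncomputable def GG (F : ℕ → K → K[X]) (P0 : K → K) (e : K) (k : ℕ) : K[X] :=
  ∑ j : Fin k, F (k - j) (e + ((j : ℕ) : K)) * cc F P0 e j

lemma cc_succ (F : ℕ → K → K[X]) (P0 : K → K) (e : K) (m : ℕ) :
    cc F P0 e (m + 1) = C (-(P0 (e + ((m + 1 : ℕ) : K)))⁻¹) * GG F P0 e (m + 1) := by
  rw [cc, GG]

lemma cc_zero (F : ℕ → K → K[X]) (P0 : K → K) (e : K) : cc F P0 e 0 = 1 := by
  rw [cc]

variable {F : ℕ → K → K[X]} {P0 : K → K} {e : K} {d : ℕ} {r : K}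

lemma deg_GG (hd : 1 ≤ d) (hr : r ≠ 0) (hF1 : ∀ s, (F 1 s).coeff d = r)
    (hF : ∀ j s, 1 ≤ j → (F j s).natDegree ≤ d) (k : ℕ) :
    (1 ≤ k → (∀ i, 1 ≤ i → i < k → P0 (e + ((i : ℕ) : K)) ≠ 0) →
      (GG F P0 e k).natDegree ≤ d * k ∧ (GG F P0 e k).coeff (d * k) ≠ 0) ∧
    ((∀ i, 1 ≤ i → i ≤ k → P0 (e + ((i : ℕ) : K)) ≠ 0) →
      (cc F P0 e k).natDegree ≤ d * k ∧ (cc F P0 e k).coeff (d * k) ≠ 0) := by
  induction k using Nat.strong_induction_on with
  | _ k ih =>
    have hG : 1 ≤ k → (∀ i, 1 ≤ i → i < k → P0 (e + ((i : ℕ) : K)) ≠ 0) →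
        (GG F P0 e k).natDegree ≤ d * k ∧ (GG F P0 e k).coeff (d * k) ≠ 0 := by
      intro hk hP
      obtain ⟨m, rfl⟩ : ∃ m, k = m + 1 := ⟨k - 1, by omega⟩
      have hterm : ∀ j : Fin (m + 1), (F (m + 1 - j) (e + ((j : ℕ) : K)) * cc F P0 e j).natDegree ≤
          d + d * j := by
        intro j
        refine natDegree_mul_le.trans (add_le_add (hF _ _ (by have := j.2; omega)) ?_)
        exact ((ih j j.2).2 fun i h1 h2 => hP i h1 (by have := j.2; omega)).1
      constructor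
      · rw [GG]
        refine natDegree_sum_le_of_forall_le _ _ fun j _ => (hterm j).trans ?_
        have h1 : (j : ℕ) ≤ m := by have := j.2; omega
        calc d + d * j ≤ d + d * m := by gcongr
          _ = d * (m + 1) := by ring
      · rw [GG, finsetSum_coeff, Fin.sum_univ_castSucc]
        have h0 : ∑ j : Fin m, (F (m + 1 - (Fin.castSucc j : Fin (m + 1))) (e + (((Fin.castSucc j : Fin (m + 1)) : ℕ) : K)) *
            cc F P0 e (Fin.castSucc j : Fin (m + 1))).coeff (d * (m + 1)) = 0 := by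
          refine sum_eq_zero fun j _ => ?_
          refine coeff_eq_zero_of_natDegree_lt ((hterm _).trans_lt ?_)
          rw [Fin.val_castSucc]
          have h1 : (j : ℕ) + 1 ≤ m := j.2
          calc d + d * j = d * (j + 1) := by ring
            _ ≤ d * m := Nat.mul_le_mul_left _ h1
            _ < d * (m + 1) := Nat.mul_lt_mul_of_pos_left (by omega) (by omega)
        rw [h0, zero_add, Fin.val_last]
        have h2 : m + 1 - m = 1 := by omega
        rw [h2]
        have h3 := (ih m (by omega)).2 fun i h1 h2 => hP i h1 (by omega)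
        have h4 : d * (m + 1) = d + d * m := by ring
        rw [h4, coeff_mul_add_eq_of_natDegree_le (hF 1 _ le_rfl) h3.1, hF1]
        exact mul_ne_zero hr h3.2
    refine ⟨hG, fun hP => ?_⟩
    rcases Nat.eq_zero_or_pos k with h0 | h0
    · subst h0
      rw [cc_zero]
      simp
    · obtain ⟨m, rfl⟩ : ∃ m, k = m + 1 := ⟨k - 1, by omega⟩
      have h1 := hG h0 fun i h1 h2 => hP i h1 h2.le
      rw [cc_succ]
      refine ⟨(natDegree_C_mul_le _ _).trans h1.1, ?_⟩
      rw [coeff_C_mul]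
      exact mul_ne_zero (neg_ne_zero.2 (inv_ne_zero (hP (m + 1) h0 le_rfl))) h1.2

/-- The coefficients of a solution. -/
lemma sol_eval {q : K} {y : ℕ → K} {t : ℕ}
    (hy : ∀ m, P0 (e + ((m : ℕ) : K)) * y (t + m) +
      ∑ j : Fin m, (F (m - j) (e + ((j : ℕ) : K))).eval q * y (t + j) = 0) (m : ℕ)
    (hP : ∀ i, 1 ≤ i → i ≤ m → P0 (e + ((i : ℕ) : K)) ≠ 0) :
    y (t + m) = (cc F P0 e m).eval q * y t := by
  induction m using Nat.strong_induction_on with
  | _ m ih =>
    rcases Nat.eq_zero_or_pos m with h0 | h0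
    · subst h0
      rw [cc_zero]; simp
    · obtain ⟨m, rfl⟩ : ∃ k, m = k + 1 := ⟨m - 1, by omega⟩
      have h1 := hy (m + 1)
      have h2 : ∑ j : Fin (m + 1), (F (m + 1 - j) (e + ((j : ℕ) : K))).eval q * y (t + j) =
          (GG F P0 e (m + 1)).eval q * y t := by
        rw [GG, eval_finsetSum, sum_mul]
        refine sum_congr rfl fun j _ => ?_
        rw [ih j j.2 fun i h1 h2 => hP i h1 (by have := j.2; omega), eval_mul]
        ring
      rw [h2] at h1
      have h3 := hP (m + 1) h0 le_rfl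
      rw [cc_succ, eval_mul, eval_C]
      field_simp
      linear_combination h1

lemma root_GG {q : K} {y : ℕ → K} {t k : ℕ} (hyt : y t ≠ 0)
    (hy : ∀ m, P0 (e + ((m : ℕ) : K)) * y (t + m) +
      ∑ j : Fin m, (F (m - j) (e + ((j : ℕ) : K))).eval q * y (t + j) = 0)
    (hP : ∀ i, 1 ≤ i → i < k → P0 (e + ((i : ℕ) : K)) ≠ 0) (hk0 : P0 (e + ((k : ℕ) : K)) = 0) :
    (GG F P0 e k).eval q = 0 := by
  have h1 := hy k
  rw [hk0, zero_mul, zero_add] at h1
  have h2 : ∑ j : Fin k, (F (k - j) (e + ((j : ℕ) : K))).eval q * y (t + j) =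
      (GG F P0 e k).eval q * y t := by
    rw [GG, eval_finsetSum, sum_mul]
    refine sum_congr rfl fun j _ => ?_
    rw [sol_eval hy j fun i h1 h2 => hP i h1 (by have := j.2; omega), eval_mul]
    ring
  rw [h2] at h1
  exact (mul_eq_zero.1 h1).resolve_right hyt

/-- The number of the parameters with a solution beginning at `e`, if `e + k` is the next exponent. -/
theorem card_le [DecidableEq K] (hd : 1 ≤ d) (hr : r ≠ 0) (hF1 : ∀ s, (F 1 s).coeff d = r)
    (hF : ∀ j s, 1 ≤ j → (F j s).natDegree ≤ d) {k : ℕ} (hk : 1 ≤ k)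
    (hP : ∀ i, 1 ≤ i → i < k → P0 (e + ((i : ℕ) : K)) ≠ 0) (hk0 : P0 (e + ((k : ℕ) : K)) = 0)
    (T : Finset K) (hT : ∀ q ∈ T, ∃ (y : ℕ → K) (t : ℕ), y t ≠ 0 ∧
      ∀ m, P0 (e + ((m : ℕ) : K)) * y (t + m) +
        ∑ j : Fin m, (F (m - j) (e + ((j : ℕ) : K))).eval q * y (t + j) = 0) :
    T.card ≤ d * k := by
  have h1 := (deg_GG (e := e) (P0 := P0) hd hr hF1 hF k).1 hk hP
  have hG0 : GG F P0 e k ≠ 0 := by
    intro h
    rw [h] at h1
    exact h1.2 (by simp)
  have hsub : T ⊆ (GG F P0 e k).roots.toFinset := by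
    intro q hq
    obtain ⟨y, t, hyt, hy⟩ := hT q hq
    rw [Multiset.mem_toFinset, mem_roots hG0]
    exact root_GG hyt hy hP hk0
  calc T.card ≤ (GG F P0 e k).roots.toFinset.card := card_le_card hsub
    _ ≤ (GG F P0 e k).natDegree := (Multiset.toFinset_card_le _).trans (card_roots' _)
    _ ≤ d * k := h1.1

end Pool.Agent.Helper84.AP
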