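import Pool.Agent.TH924.PC.Asym
import Pool.Agent.Helper84.AP.Mert

set_option autoImplicit false

/-!
# The larger sieve with weights depending on the residue class of the prime
-/

namespace Pool.Agent.Helper84.AP

open Finset Filter Pool.Agent.Helper923.HMertens Pool.Agent.TH924.PC

open Classical in
/-- The larger sieve with weights. -/
lemma weighted3 {P : Finset ℕ} (hP : ∀ p ∈ P, p.Prime) (A : ℕ → ℤ → Prop) (W : ℕ → ℝ) {B : ℝ}
    (hW0 : ∀ p ∈ P, 0 ≤ W p) (hWB : ∀ p ∈ P, W p ≤ B)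
    (hT : ∀ p ∈ P, ∀ T : Finset (ZMod p), (∀ t ∈ T, ∃ q : ℤ, (q : ZMod p) = t ∧ A p q) →
      (T.card : ℝ) * W p ≤ p) {S : Finset ℤ} {X E t : ℝ} (hX : 1 ≤ X)
    (hS : ∀ q ∈ S, |(q : ℝ)| ≤ X) (hE : 0 ≤ E) (ht : 0 ≤ t) (hB : 0 ≤ B)
    (hSE : ∀ q ∈ S, ∑ p ∈ P with ¬ A p q, Real.log p / p ≤ E) :
    (S.card : ℝ) * ((2 * t - t ^ 2) * ∑ p ∈ P, Real.log p / p * W p - 2 * t * B * E -
      Real.log (2 * X)) ≤ ∑ p ∈ P, Real.log p := by
  rcases Nat.eq_zero_or_pos S.card with h0 | hpos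
  · rw [h0]
    have : 0 ≤ ∑ p ∈ P, Real.log p := sum_nonneg fun p hp => Real.log_natCast_nonneg p
    simp only [Nat.cast_zero, zero_mul]
    exact this
  have hw0 : ∀ p ∈ P, 0 ≤ Real.log p / p := fun p _ =>
    div_nonneg (Real.log_natCast_nonneg p) (Nat.cast_nonneg p)
  have hs0 : (0 : ℝ) < S.card := by exact_mod_cast hpos
  set Sp : ℕ → Finset ℤ := fun p => S.filter fun q => A p q with hSp
  -- pairs
  have h3 : ∀ p ∈ P, Real.log p / p * W p * ((Sp p).card : ℝ) ^ 2 ≤
      Real.log p * (prs S p).card := by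
    intro p hp
    have hp0 : (0 : ℝ) < p := by exact_mod_cast (hP p hp).pos
    have hlog : 0 ≤ Real.log (p : ℝ) := Real.log_natCast_nonneg p
    have hcs := cs_classes (Sp p) p
    have hcl : (((Sp p).image fun q : ℤ => (q : ZMod p)).card : ℝ) * W p ≤ p := by
      refine hT p hp ((Sp p).image fun q : ℤ => (q : ZMod p)) ?_
      intro t ht
      rw [mem_image] at ht
      obtain ⟨q, hq, rfl⟩ := ht
      exact ⟨q, rfl, (mem_filter.1 hq).2⟩
    have hmono : ((prs (Sp p) p).card : ℝ) ≤ (prs S p).card := by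
      exact_mod_cast prs_mono (filter_subset _ _) p
    have h4 : W p * ((Sp p).card : ℝ) ^ 2 ≤ p * (prs S p).card := by
      calc W p * ((Sp p).card : ℝ) ^ 2
          ≤ W p * ((((Sp p).image fun q : ℤ => (q : ZMod p)).card : ℝ) * (prs (Sp p) p).card) :=
            mul_le_mul_of_nonneg_left hcs (hW0 p hp)
        _ = ((((Sp p).image fun q : ℤ => (q : ZMod p)).card : ℝ) * W p) * (prs (Sp p) p).card := by ring
        _ ≤ p * (prs (Sp p) p).card := mul_le_mul_of_nonneg_right hcl (Nat.cast_nonneg _)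
        _ ≤ p * (prs S p).card := mul_le_mul_of_nonneg_left hmono hp0.le
    calc Real.log p / p * W p * ((Sp p).card : ℝ) ^ 2
        = Real.log p / p * (W p * ((Sp p).card : ℝ) ^ 2) := by ring
      _ ≤ Real.log p / p * (p * (prs S p).card) := mul_le_mul_of_nonneg_left h4 (hw0 p hp)
      _ = Real.log p * (prs S p).card := by field_simp
  have h4 := pairs_le hP hX hS
  have h5 : ∑ p ∈ P, Real.log p / p * W p * ((Sp p).card : ℝ) ^ 2 ≤
      (S.card : ℝ) ^ 2 * Real.log (2 * X) + S.card * ∑ p ∈ P, Real.log p :=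
    (sum_le_sum h3).trans h4
  -- the lower bound
  have h6 : ∀ p ∈ P, Real.log p / p * W p * (2 * t - t ^ 2) * (S.card : ℝ) ^ 2 -
      2 * t * S.card * (Real.log p / p * W p * ((S.card : ℝ) - (Sp p).card)) ≤
      Real.log p / p * W p * ((Sp p).card : ℝ) ^ 2 := by
    intro p hp
    have h7 : 0 ≤ Real.log p / p * W p * (((Sp p).card : ℝ) - t * S.card) ^ 2 :=
      mul_nonneg (mul_nonneg (hw0 p hp) (hW0 p hp)) (sq_nonneg _)
    nlinarith
  have h7 := sum_le_sum h6
  rw [sum_sub_distrib, ← sum_mul, ← sum_mul, ← mul_sum] at h7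
  -- the defect
  have h8 : ∑ p ∈ P, Real.log p / p * W p * ((S.card : ℝ) - (Sp p).card) ≤ B * (S.card * E) := by
    have h9 : ∀ p ∈ P, Real.log p / p * W p * ((S.card : ℝ) - (Sp p).card) ≤
        B * (∑ q ∈ S, if ¬ A p q then Real.log p / p else 0) := by
      intro p hp
      have h10 : (S.card : ℝ) - (Sp p).card = ((S.filter fun q => ¬ A p q).card : ℝ) := by
        have := card_filter_add_card_filter_not (s := S) (fun q => A p q)
        rw [← this]
        push_cast
        rw [hSp]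
        ring
      rw [h10, ← sum_filter, sum_const, nsmul_eq_mul]
      have h11 : 0 ≤ Real.log p / p * ((S.filter fun q => ¬ A p q).card : ℝ) :=
        mul_nonneg (hw0 p hp) (Nat.cast_nonneg _)
      have h12 := mul_le_mul_of_nonneg_right (hWB p hp) h11
      linarith
    refine (sum_le_sum h9).trans ?_
    rw [← mul_sum, sum_comm]
    refine mul_le_mul_of_nonneg_left ?_ hB
    have h10 : ∀ q ∈ S, (∑ p ∈ P, if ¬ A p q then Real.log p / p else 0) ≤ E := by
      intro q hq
      rw [← sum_filter]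
      exact hSE q hq
    refine (sum_le_sum h10).trans (le_of_eq ?_)
    rw [sum_const, nsmul_eq_mul]
  have h9 := mul_le_mul_of_nonneg_left h8 (show 0 ≤ 2 * t * (S.card : ℝ) by positivity)
  have h10 : (S.card : ℝ) * ((S.card : ℝ) * ((2 * t - t ^ 2) * ∑ p ∈ P, Real.log p / p * W p -
      2 * t * B * E - Real.log (2 * X))) ≤ S.card * ∑ p ∈ P, Real.log p := by
    nlinarith
  exact le_of_mul_le_mul_left h10 hs0

end Pool.Agent.Helper84.AP
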